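import Pool.Agent.MP_14a896_co.Upper

/-! The simple order type of a sweep. -/

open Set Real

namespace Pool.Agent.MP_14a896_co

/-- Alternating, uniform, and satisfying the three-term relations. -/
structure Pre {ι : Type} (χ : ι → ι → ι → SignType) : Prop where
  swap_left : ∀ i j k, χ j i k = -χ i j k
  swap_right : ∀ i j k, χ i k j = -χ i j k
  uniform : ∀ i j k, i ≠ j → i ≠ k → j ≠ k → χ i j k ≠ 0
  gp3 : ∀ p a b c d, 0 ≤ χ p a b * χ p c d → 0 ≤ χ p a d * χ p b c → 0 ≤ χ p a c * χ p b d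

set_option synthInstance.maxSize 4000 in
lemma six_signs : ∀ a : SignType, a ≠ 0 → ∀ b₁ : SignType, b₁ ≠ 0 → ∀ b₂ : SignType, b₂ ≠ 0 →
    ∀ b₃ : SignType, b₃ ≠ 0 → ∀ f₁ : SignType, f₁ ≠ 0 → ∀ f₂ : SignType, f₂ ≠ 0 →
    ∀ f₃ : SignType, f₃ ≠ 0 → (f₁ * b₁ = f₂ * b₂ → f₂ * b₂ = f₃ * b₃ → f₁ * b₁ = 0) →
    ∀ e₁ : SignType, e₁ ≠ 0 → (a * e₁ = -(b₂ * f₃) → -(b₂ * f₃) = b₃ * f₂ → a * e₁ = 0) →
    ∀ e₂ : SignType, e₂ ≠ 0 → (a * e₂ = -(b₃ * f₁) → -(b₃ * f₁) = b₁ * f₃ → a * e₂ = 0) →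
    ∀ e₃ : SignType, e₃ ≠ 0 → (a * e₃ = -(b₁ * f₂) → -(b₁ * f₂) = b₂ * f₁ → a * e₃ = 0) →
    (f₁ * -a = e₃ * b₂ → e₃ * b₂ = -(e₂ * b₃) → f₁ * -a = 0) →
    (f₂ * -a = e₁ * b₃ → e₁ * b₃ = -(e₃ * b₁) → f₂ * -a = 0) → False := by
  decide +kernel

namespace Pre

variable {ι : Type} {χ : ι → ι → ι → SignType} (h : Pre χ)
include h

lemma cyc (i j k : ι) : χ j k i = χ i j k := by
  rw [h.swap_right, h.swap_left, neg_neg]

lemma zero₁ (i k : ι) : χ i i k = 0 := by
  have := h.swap_left i i k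
  revert this
  generalize χ i i k = s
  revert s
  decide

lemma zero₂ (i k : ι) : χ i k k = 0 := by rw [← h.cyc, h.zero₁]

lemma zero₃ (i k : ι) : χ i k i = 0 := by rw [h.cyc, h.zero₁]

lemma gpn (p a b c d : ι) : χ p a b * χ p c d = χ p a c * χ p d b →
    χ p a c * χ p d b = χ p a d * χ p b c → χ p a b * χ p c d = 0 := by
  have g1 := h.gp3 p a b c d
  have g2 := h.gp3 p a d c b
  rw [h.swap_right p d b, mul_neg] at g1
  rw [h.swap_right p b c, h.swap_right p c d, mul_neg, mul_neg] at g2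
  revert g1 g2
  generalize χ p a b * χ p c d = x
  generalize χ p a c * χ p d b = y
  generalize χ p a d * χ p b c = z
  revert x y z
  decide

lemma gpq (p q x v w : ι) : χ p q x * χ p v w = -(χ p q v * χ p x w) →
    -(χ p q v * χ p x w) = χ p q w * χ p x v → χ p q x * χ p v w = 0 := by
  simpa only [h.swap_right p x w, mul_neg] using h.gpn p q x v w

lemma gpx (p x u v w : ι) : χ p x u * χ x v w = χ p x v * χ x w u →
    χ p x v * χ x w u = χ p x w * χ x u v → χ p x u * χ x v w = 0 := by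
  simpa only [h.swap_left p x, neg_mul, neg_inj, SignType.neg_eq_zero_iff] using h.gpn x p u v w

lemma gpy (p x u v w : ι) : χ p x u * χ u v w = χ p u v * χ x w u →
    χ p u v * χ x w u = -(χ p w u * χ x u v) → χ p x u * χ u v w = 0 := by
  have := h.gpn u p x v w
  rwa [← h.cyc u p x, h.swap_left p u v, h.cyc x u w, h.swap_right x w u, neg_mul_neg,
    ← h.cyc u p w, h.swap_left x u v, mul_neg] at this

lemma b2_aux {p q x u v : ι} (h2 : 0 ≤ χ p q u * χ x v p) (h3 : 0 ≤ χ p q v * χ x p u) :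
    0 ≤ χ p q x * χ p u v :=
  h.gp3 p q u x v (by rwa [← h.cyc p x v]) (by rwa [h.cyc x p u])

lemma b2_left {p q x u v w : ι} (hp : p = u ∨ p = v ∨ p = w) (h1 : 0 ≤ χ p q u * χ x v w)
    (h2 : 0 ≤ χ p q v * χ x w u) (h3 : 0 ≤ χ p q w * χ x u v) : 0 ≤ χ p q x * χ u v w := by
  rcases hp with rfl | rfl | rfl
  · exact h.b2_aux h2 h3
  · exact h.cyc u p w ▸ h.b2_aux h3 h1
  · exact h.cyc p u v ▸ h.b2_aux h1 h2

lemma b2 (p q x u v w : ι) (h1 : 0 ≤ χ p q u * χ x v w) (h2 : 0 ≤ χ p q v * χ x w u)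
    (h3 : 0 ≤ χ p q w * χ x u v) : 0 ≤ χ p q x * χ u v w := by
  by_cases hp : p = u ∨ p = v ∨ p = w
  · exact h.b2_left hp h1 h2 h3
  by_cases hq : q = u ∨ q = w ∨ q = v
  · have := h.b2_left (q := p) (x := x) hq
    simp only [h.swap_left p q, h.swap_right x v w, h.swap_right x u v, h.swap_right x w u,
      h.swap_right u v w, neg_mul_neg] at this
    exact this h1 h3 h2
  rcases eq_or_ne x u with rfl | xu
  · exact h1
  rcases eq_or_ne x v with rfl | xv
  · exact h.cyc u x w ▸ h2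
  rcases eq_or_ne x w with rfl | xw
  · exact h.cyc x u v ▸ h3
  by_contra hc
  have pq : p ≠ q := by rintro rfl; simp [h.zero₁] at hc
  have px : p ≠ x := by rintro rfl; simp [h.zero₃] at hc
  have qx : q ≠ x := by rintro rfl; simp [h.zero₂] at hc
  have uv : u ≠ v := by rintro rfl; simp [h.zero₁] at hc
  have uw : u ≠ w := by rintro rfl; simp [h.zero₃] at hc
  have vw : v ≠ w := by rintro rfl; simp [h.zero₂] at hc
  simp only [not_or] at hp hq
  have k1 : ∀ b c : SignType, b ≠ 0 → c ≠ 0 → 0 ≤ b * c → c = b := by decide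
  have k2 : ∀ a d : SignType, ¬ 0 ≤ a * d → d = -a := by decide
  have b1 := h.uniform p q u pq hp.1 hq.1
  have b2 := h.uniform p q v pq hp.2.1 hq.2.2
  have b3 := h.uniform p q w pq hp.2.2 hq.2.1
  have c1 := k1 _ _ b1 (h.uniform x v w xv xw vw) h1
  have c2 := k1 _ _ b2 (h.uniform x w u xw xu uw.symm) h2
  have c3 := k1 _ _ b3 (h.uniform x u v xu xv uv) h3
  have r1 := h.gpx p x u v w
  have r2 := h.gpy p x u v w
  have r3 := h.gpy p x v w u
  rw [c1, c2, c3] at r1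
  rw [c2, c3, k2 _ _ hc] at r2
  rw [c3, c1, h.cyc u v w, k2 _ _ hc] at r3
  exact six_signs _ (h.uniform p q x pq px qx) _ b1 _ b2 _ b3 _ (h.uniform p x u px hp.1 xu)
    _ (h.uniform p x v px hp.2.1 xv) _ (h.uniform p x w px hp.2.2 xw) r1
    _ (h.uniform p v w hp.2.1 hp.2.2 vw) (h.gpq p q x v w)
    _ (h.uniform p w u hp.2.2 hp.1 uw.symm) (h.gpq p q x w u)
    _ (h.uniform p u v hp.1 hp.2.1 uv) (h.gpq p q x u v) r2 r3

end Pre

/-- Symmetric crossing times, monotone on every triple. -/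
structure Sweep {n : ℕ} (T : Fin n → Fin n → ℝ) : Prop where
  symm : ∀ i j, T i j = T j i
  mono : ∀ i j k, i < j → j < k → (T i j < T i k ∧ T i k < T j k) ∨ (T j k < T i k ∧ T i k < T i j)

/-- The difference of two labels. -/
def df {n : ℕ} (i j : Fin n) : ℝ := ((j : ℕ) : ℝ) - (i : ℕ)

lemma df_pos {n : ℕ} {i j : Fin n} (h : i < j) : 0 < df i j :=
  sub_pos.2 (Nat.cast_lt.2 h)

lemma df_neg {n : ℕ} {i j : Fin n} (h : j < i) : df i j < 0 :=
  sub_neg.2 (Nat.cast_lt.2 h)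

/-- The order type of a sweep. -/
noncomputable def chi {n : ℕ} (T : Fin n → Fin n → ℝ) (i j k : Fin n) : SignType :=
  SignType.sign (df i j * df i k * (T i k - T i j))

variable {n : ℕ} {T : Fin n → Fin n → ℝ}

lemma chi_swap_right (i j k : Fin n) : chi T i k j = -chi T i j k := by
  rw [chi, chi, ← Left.sign_neg]
  congr 1
  ring

lemma Sweep.swap_lt (h : Sweep T) {i j : Fin n} (ij : i < j) (k : Fin n) :
    chi T j i k = -chi T i j k := by
  simp only [chi, sign_mul, _root_.sign_pos (df_pos ij), _root_.sign_neg (df_neg ij), h.symm j i]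
  rcases lt_trichotomy k i with ki | rfl | ik
  · rw [_root_.sign_neg (df_neg ki), _root_.sign_neg (df_neg (ki.trans ij)), h.symm j k, h.symm i k]
    rcases h.mono k i j ki ij with h' | h'
    · rw [_root_.sign_neg (sub_neg.2 h'.2), _root_.sign_neg (sub_neg.2 (h'.1.trans h'.2))]
      decide
    · rw [_root_.sign_pos (sub_pos.2 h'.1), _root_.sign_pos (sub_pos.2 (h'.1.trans h'.2))]
      decide
  · simp [df, h.symm j k]
  rcases lt_trichotomy k j with kj | rfl | jk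
  · rw [_root_.sign_pos (df_pos ik), _root_.sign_neg (df_neg kj), h.symm j k]
    rcases h.mono i k j ik kj with h' | h'
    · rw [_root_.sign_neg (sub_neg.2 h'.1), _root_.sign_pos (sub_pos.2 h'.2)]
      decide
    · rw [_root_.sign_neg (sub_neg.2 h'.1), _root_.sign_pos (sub_pos.2 h'.2)]
      decide
  · simp [df]
  · rw [_root_.sign_pos (df_pos ik), _root_.sign_pos (df_pos jk)]
    rcases h.mono i j k ij jk with h' | h'
    · rw [_root_.sign_pos (sub_pos.2 h'.1), _root_.sign_pos (sub_pos.2 (h'.1.trans h'.2))]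
      decide
    · rw [_root_.sign_neg (sub_neg.2 h'.2), _root_.sign_neg (sub_neg.2 (h'.1.trans h'.2))]
      decide

lemma Sweep.swap_left (h : Sweep T) (i j k : Fin n) : chi T j i k = -chi T i j k := by
  rcases lt_trichotomy i j with ij | rfl | ij
  · exact h.swap_lt ij k
  · simp [chi, df]
  · rw [h.swap_lt ij k, neg_neg]

lemma Sweep.pre (h : Sweep T) : Pre (chi T) := by
  refine ⟨h.swap_left, chi_swap_right, fun i j k => ?_, fun p a b c d h1 h2 => ?_⟩
  · refine sort3 (c := fun i : Fin n => ((i : ℕ) : ℝ)) (P := fun i j k => chi T i j k ≠ 0)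
      (Nat.cast_injective.comp Fin.val_injective) (fun i j k e => ?_) (fun i j k e => ?_)
      fun i j k ij jk => ?_
    · rwa [h.swap_left, Ne, SignType.neg_eq_zero_iff]
    · rwa [chi_swap_right, Ne, SignType.neg_eq_zero_iff]
    have ij : i < j := Nat.cast_lt.1 ij
    have jk : j < k := Nat.cast_lt.1 jk
    refine sign_ne_zero.2 (mul_ne_zero (mul_pos (df_pos ij) (df_pos (ij.trans jk))).ne' ?_)
    rcases h.mono i j k ij jk with h' | h'
    · exact (sub_pos.2 h'.1).ne'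
    · exact (sub_neg.2 h'.2).ne
  · simp only [chi, ← sign_mul, sign_nonneg_iff] at h1 h2 ⊢
    convert add_nonneg h1 h2 using 1
    ring

lemma chi_no_cycle {m x y z : Fin n} (hx : m ≤ x) (hy : m ≤ y) (hz : m ≤ z)
    (h1 : chi T m x y = 1) (h2 : chi T m y z = 1) (h3 : chi T m z x = 1) : False := by
  have k : ∀ {x y}, m ≤ x → m ≤ y → chi T m x y = 1 → T m x < T m y := fun hx hy e =>
    sub_pos.1 (pos_of_mul_pos_right (sign_eq_one_iff.1 e)
      (mul_nonneg (sub_nonneg.2 (Nat.cast_le.2 hx)) (sub_nonneg.2 (Nat.cast_le.2 hy))))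
  linarith [k hx hy h1, k hy hz h2, k hz hx h3]

theorem Sweep.isSimpleOrderType (h : Sweep T) : IsSimpleOrderType (chi T) := by
  have k := h.pre
  refine ⟨k.swap_left, k.swap_right, fun x p q u v w h1 h2 h3 => ?_, ?_, k.uniform⟩
  · rw [← k.cyc x p q]
    refine k.b2 p q x u v w (by rwa [k.cyc]) (by rwa [k.cyc v p q, k.cyc u x w]) ?_
    rwa [k.cyc w p q, ← k.cyc x u v]
  · rintro ⟨a, b, c, d, h1, h2, h3, h4⟩
    have h5 : chi T a d c = 1 := by rw [k.swap_right, h2, neg_neg]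
    have h6 : chi T a c b = 1 := by rw [k.swap_right, h4, neg_neg]
    have : (a ≤ b ∧ a ≤ c ∧ a ≤ d) ∨ (b ≤ a ∧ b ≤ c ∧ b ≤ d) ∨ (c ≤ a ∧ c ≤ b ∧ c ≤ d) ∨
        (d ≤ a ∧ d ≤ b ∧ d ≤ c) := by omega
    rcases this with e | e | e | e
    · exact chi_no_cycle e.1 e.2.2 e.2.1 h3 h5 h6
    · exact chi_no_cycle e.2.1 e.2.2 e.1 h1 (by rw [k.cyc, h3]) (by rw [← k.cyc, h6])
    · exact chi_no_cycle e.1 e.2.2 e.2.1 (by rw [← k.cyc, h5]) (by rw [k.cyc, h1])
        (by rw [k.cyc, h6])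
    · exact chi_no_cycle e.1 e.2.1 e.2.2 (by rw [← k.cyc, h3]) (by rw [← k.cyc, h1])
        (by rw [k.cyc, h5])

end Pool.Agent.MP_14a896_co
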