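import Pool.Agent.MP_14a896_co.Defs

/-! Periodic functions with exactly two sign changes. -/

open Set Real

namespace Pool.Agent.MP_14a896_co

/-- Period `2π`. -/
def Per (d : ℝ → ℝ) : Prop := Function.Periodic d (2 * π)

/-- `d` crosses zero upwards at `α`, downwards at `β`, and nowhere else in a period. -/
structure Cr (d : ℝ → ℝ) (α β : ℝ) : Prop where
  lt : α < β
  lt' : β < α + 2 * π
  za : d α = 0
  zb : d β = 0
  pos : ∀ θ, α < θ → θ < β → 0 < d θ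
  neg : ∀ θ, β < θ → θ < α + 2 * π → d θ < 0

variable {d e : ℝ → ℝ} {α β γ δ : ℝ}

lemma Per.int (h : Per d) (z : ℤ) (θ : ℝ) : d (θ + z * (2 * π)) = d θ := h.int_mul z θ

lemma Per.add (h : Per d) (θ : ℝ) : d (θ + 2 * π) = d θ := h θ

lemma Per.sub' (h : Per d) (θ : ℝ) : d (θ - 2 * π) = d θ := Function.Periodic.sub_eq h θ

lemma Per.sub {a b : ℝ → ℝ} (ha : Per a) (hb : Per b) : Per fun θ => a θ - b θ := fun θ => by
  simp only [ha.add, hb.add]

lemma Per.neg (h : Per d) : Per fun θ => -d θ := fun θ => by simp only [h.add]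

lemma exists_shift (a θ : ℝ) : ∃ z : ℤ, a ≤ θ + z * (2 * π) ∧ θ + z * (2 * π) < a + 2 * π := by
  obtain ⟨z, hz, -⟩ := existsUnique_add_zsmul_mem_Ico two_pi_pos θ a
  exact ⟨z, by simpa using hz.1, by simpa using hz.2⟩

lemma Cr.shift (hp : Per d) (h : Cr d α β) (z : ℤ) :
    Cr d (α + z * (2 * π)) (β + z * (2 * π)) := by
  have key : ∀ θ, d θ = d (θ - z * (2 * π)) := fun θ => by
    rw [← hp.int z (θ - z * (2 * π)), sub_add_cancel]
  refine ⟨by linarith [h.lt], by linarith [h.lt'], by rw [hp.int, h.za], by rw [hp.int, h.zb],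
    fun θ h1 h2 => ?_, fun θ h1 h2 => ?_⟩
  · rw [key]; exact h.pos _ (by linarith) (by linarith)
  · rw [key]; exact h.neg _ (by linarith) (by linarith)

lemma Cr.neg' (hp : Per d) (h : Cr d α β) {θ : ℝ} (h1 : β - 2 * π < θ) (h2 : θ < α) : d θ < 0 := by
  rw [← hp.add]; exact h.neg _ (by linarith) (by linarith)

lemma Cr.flip (hp : Per d) (h : Cr d α β) : Cr (fun θ => -d θ) β (α + 2 * π) := by
  refine ⟨h.lt', by linarith [h.lt], by simp [h.zb], by simp [hp.add, h.za],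
    fun θ h1 h2 => neg_pos.2 (h.neg θ h1 h2), fun θ h1 h2 => ?_⟩
  rw [neg_lt_zero, ← hp.sub']
  exact h.pos _ (by linarith) (by linarith)

lemma Cr.mem_of_pos (hp : Per d) (h : Cr d α β) {θ : ℝ} (h1 : β - 2 * π ≤ θ)
    (h2 : θ ≤ α + 2 * π) (h0 : 0 < d θ) : α < θ ∧ θ < β := by
  constructor
  · by_contra hc
    rcases (not_lt.1 hc).eq_or_lt with rfl | hc
    · exact h0.ne' h.za
    rcases h1.eq_or_lt with rfl | h1
    · rw [hp.sub', h.zb] at h0; exact h0.false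
    · exact (h.neg' hp h1 hc).not_gt h0
  · by_contra hc
    rcases (not_lt.1 hc).eq_or_lt with rfl | hc
    · exact h0.ne' h.zb
    rcases h2.eq_or_lt with rfl | h2
    · rw [hp.add, h.za] at h0; exact h0.false
    · exact (h.neg θ hc h2).not_gt h0

lemma Cr.nonneg (h : Cr d α β) {θ : ℝ} (h1 : α ≤ θ) (h2 : θ ≤ β) : 0 ≤ d θ := by
  rcases h1.eq_or_lt with rfl | h1
  · exact h.za.ge
  rcases h2.eq_or_lt with rfl | h2
  · exact h.zb.ge
  exact (h.pos θ h1 h2).le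

lemma Cr.zero (h : Cr d α β) {θ : ℝ} (h1 : α ≤ θ) (h2 : θ < α + 2 * π) (h0 : d θ = 0) :
    θ = α ∨ θ = β := by
  rcases h1.eq_or_lt with rfl | h1
  · exact Or.inl rfl
  rcases lt_trichotomy θ β with h3 | h3 | h3
  · exact absurd h0 (h.pos θ h1 h3).ne'
  · exact Or.inr h3
  · exact absurd h0 (h.neg θ h3 h2).ne

lemma Cr.unique (hp : Per d) (h : Cr d α β) (h' : Cr d γ δ) :
    ∃ z : ℤ, α = γ + z * (2 * π) ∧ β = δ + z * (2 * π) := by
  obtain ⟨z, h1, h2⟩ := exists_shift α γ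
  have k := h'.shift hp z
  refine ⟨z, ?_⟩
  generalize γ + z * (2 * π) = γ' at *
  generalize δ + z * (2 * π) = δ' at *
  have e : γ' = α := by
    refine (h.zero h1 h2 k.za).resolve_right fun e => ?_
    subst e
    have m1 := min_le_left δ' (α + 2 * π)
    have m2 := min_le_right δ' (α + 2 * π)
    have m3 : γ' < min δ' (α + 2 * π) := lt_min k.lt h2
    exact (k.pos ((γ' + min δ' (α + 2 * π)) / 2) (by linarith) (by linarith)).not_gt
      (h.neg _ (by linarith) (by linarith))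
  subst e
  exact ⟨rfl, ((h.zero k.lt.le k.lt' k.zb).resolve_left k.lt.ne').symm⟩

lemma Cr.no_four (hp : Per d) (h : Cr d α β) {t₁ t₂ t₃ t₄ : ℝ} (h12 : t₁ < t₂) (h23 : t₂ < t₃)
    (h34 : t₃ < t₄) (h41 : t₄ < t₁ + 2 * π) (s₁ : d t₁ < 0) (s₂ : 0 < d t₂) (s₃ : d t₃ < 0)
    (s₄ : 0 < d t₄) : False := by
  obtain ⟨z, h1, h2⟩ := exists_shift t₁ β
  have k := h.shift hp z
  generalize α + z * (2 * π) = α' at *
  generalize β + z * (2 * π) = β' at *
  have a1 : t₁ < α' := by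
    by_contra hc
    exact (k.nonneg (not_lt.1 hc) h1).not_gt s₁
  have a2 := k.mem_of_pos hp (θ := t₂) (by linarith) (by linarith) s₂
  have a4 := k.mem_of_pos hp (θ := t₄) (by linarith) (by linarith) s₄
  exact (k.pos t₃ (by linarith [a2.1]) (by linarith [a4.2])).not_gt s₃

/-- The crossings of `d` and `e` alternate, with `d` first. -/
def Interl (d e : ℝ → ℝ) : Prop :=
  ∃ α β γ δ, α < γ ∧ γ < β ∧ β < δ ∧ δ < α + 2 * π ∧ Cr d α β ∧ Cr e γ δ

lemma Interl.rot (hp : Per d) (h : Interl d e) : Interl e fun θ => -d θ := by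
  obtain ⟨α, β, γ, δ, h1, h2, h3, h4, h5, h6⟩ := h
  exact ⟨γ, δ, β, α + 2 * π, h2, h3, h4, by linarith, h6, h5.flip hp⟩

/-- The three functions are on top in cyclic order. -/
def Ccw (a b c : ℝ → ℝ) : Prop :=
  ∃ θ₁ θ₂ θ₃, θ₁ < θ₂ ∧ θ₂ < θ₃ ∧ θ₃ < θ₁ + 2 * π ∧ (b θ₁ < a θ₁ ∧ c θ₁ < a θ₁) ∧
    (a θ₂ < b θ₂ ∧ c θ₂ < b θ₂) ∧ (a θ₃ < c θ₃ ∧ b θ₃ < c θ₃)

variable {a b c : ℝ → ℝ}

lemma Interl.ccw (ha : Per a) (hb : Per b) (hc : Per c)
    (h : Interl (fun θ => b θ - a θ) fun θ => c θ - a θ) : Ccw a b c := by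
  obtain ⟨α, β, γ, δ, h1, h2, h3, h4, h5, h6⟩ := h
  have p1 := hb.sub ha
  have p2 := hc.sub ha
  have a1 := h5.neg' p1 (θ := (δ - 2 * π + α) / 2) (by linarith) (by linarith)
  have a2 := h6.neg' p2 (θ := (δ - 2 * π + α) / 2) (by linarith) (by linarith)
  have a3 := h5.pos ((α + γ) / 2) (by linarith) (by linarith)
  have a4 := h6.neg' p2 (θ := (α + γ) / 2) (by linarith) (by linarith)
  have a5 := h5.neg ((β + δ) / 2) (by linarith) (by linarith)
  have a6 := h6.pos ((β + δ) / 2) (by linarith) (by linarith)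
  exact ⟨(δ - 2 * π + α) / 2, (α + γ) / 2, (β + δ) / 2, by linarith, by linarith, by linarith,
    ⟨by linarith, by linarith⟩, ⟨by linarith, by linarith⟩, by linarith, by linarith⟩

lemma Interl.not_ccw (ha : Per a) (hb : Per b) (hc : Per c)
    (h : Interl (fun θ => b θ - a θ) fun θ => c θ - a θ) {μ ν : ℝ}
    (h' : Cr (fun θ => c θ - b θ) μ ν) : ¬ Ccw a c b := by
  obtain ⟨α, β, γ, δ, h1, h2, h3, h4, h5, h6⟩ := h
  rintro ⟨θ₁, θ₂, θ₃, k1, k2, k3, ⟨t1, t2⟩, ⟨t3, t4⟩, t5, t6⟩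
  have p1 := hb.sub ha
  have p2 := hc.sub ha
  obtain ⟨z, s1, s2⟩ := exists_shift θ₁ δ
  have c5 := h5.shift p1 z
  have c6 := h6.shift p2 z
  have g1 : α + z * (2 * π) < γ + z * (2 * π) := by linarith
  have g2 : γ + z * (2 * π) < β + z * (2 * π) := by linarith
  have g3 : β + z * (2 * π) < δ + z * (2 * π) := by linarith
  have g4 : δ + z * (2 * π) < α + z * (2 * π) + 2 * π := by linarith
  generalize α + z * (2 * π) = α' at *
  generalize β + z * (2 * π) = β' at *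
  generalize γ + z * (2 * π) = γ' at *
  generalize δ + z * (2 * π) = δ' at *
  have a1 : θ₁ < α' := by
    by_contra hc'
    rcases le_total θ₁ β' with hh | hh
    · have := c5.nonneg (not_lt.1 hc') hh
      linarith
    · have := c6.nonneg (θ := θ₁) (by linarith) s1
      linarith
  have a2 := c6.mem_of_pos p2 (θ := θ₂) (by linarith) (by linarith) (by linarith)
  have a3 := c5.mem_of_pos p1 (θ := θ₃) (by linarith) (by linarith) (by linarith)
  have b3 := c5.pos ((α' + γ') / 2) (by linarith) (by linarith)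
  have b4 := c6.neg' p2 (θ := (α' + γ') / 2) (by linarith) (by linarith)
  have b5 := c5.neg ((β' + δ') / 2) (by linarith) (by linarith)
  have b6 := c6.pos ((β' + δ') / 2) (by linarith) (by linarith)
  exact h'.no_four (hc.sub hb) (t₁ := (α' + γ') / 2) (t₂ := θ₂) (t₃ := θ₃) (t₄ := (β' + δ') / 2)
    (by linarith [a2.1]) k2 (by linarith [a3.2]) (by linarith) (by linarith) (by linarith)
    (by linarith) (by linarith)

lemma Cr.transfer {φ : ℝ ≃o ℝ} (hφ : ∀ θ, φ (θ + 2 * π) = φ θ + 2 * π)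
    (hs : ∀ θ, SignType.sign (d θ) = SignType.sign (e (φ θ))) (h : Cr e α β) :
    Cr d (φ.symm α) (φ.symm β) := by
  have h1 : φ.symm (α + 2 * π) = φ.symm α + 2 * π := by
    rw [OrderIso.symm_apply_eq, hφ, φ.apply_symm_apply]
  refine ⟨φ.symm.strictMono h.lt, h1 ▸ φ.symm.strictMono h.lt', ?_, ?_, fun θ a1 a2 => ?_,
    fun θ a1 a2 => ?_⟩
  · rw [← _root_.sign_eq_zero_iff, hs, φ.apply_symm_apply, h.za, _root_.sign_zero]
  · rw [← _root_.sign_eq_zero_iff, hs, φ.apply_symm_apply, h.zb, _root_.sign_zero]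
  · rw [← sign_eq_one_iff, hs, sign_eq_one_iff]
    exact h.pos _ (φ.symm_apply_lt.1 a1) (φ.lt_symm_apply.1 a2)
  · rw [← sign_eq_neg_one_iff, hs, sign_eq_neg_one_iff]
    rw [← h1] at a2
    exact h.neg _ (φ.symm_apply_lt.1 a1) (φ.lt_symm_apply.1 a2)

lemma Interl.transfer {d' e' : ℝ → ℝ} {φ : ℝ ≃o ℝ} (hφ : ∀ θ, φ (θ + 2 * π) = φ θ + 2 * π)
    (hd : ∀ θ, SignType.sign (d θ) = SignType.sign (d' (φ θ)))
    (he : ∀ θ, SignType.sign (e θ) = SignType.sign (e' (φ θ))) (h : Interl d' e') :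
    Interl d e := by
  obtain ⟨α, β, γ, δ, h1, h2, h3, h4, h5, h6⟩ := h
  have h7 : φ.symm (α + 2 * π) = φ.symm α + 2 * π := by
    rw [OrderIso.symm_apply_eq, hφ, φ.apply_symm_apply]
  exact ⟨_, _, _, _, φ.symm.strictMono h1, φ.symm.strictMono h2, φ.symm.strictMono h3,
    h7 ▸ φ.symm.strictMono h4, h5.transfer hφ hd, h6.transfer hφ he⟩

lemma cr_sin {r : ℝ} (hr : 0 < r) (α : ℝ) : Cr (fun θ => r * sin (θ - α)) α (α + π) := by
  have := pi_pos
  refine ⟨by linarith, by linarith, by simp, by simp, fun θ h1 h2 => ?_, fun θ h1 h2 => ?_⟩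
  · exact mul_pos hr (sin_pos_of_pos_of_lt_pi (by linarith) (by linarith))
  · refine mul_neg_of_pos_of_neg hr ?_
    rw [← sin_sub_two_pi]
    exact sin_neg_of_neg_of_neg_pi_lt (by linarith) (by linarith)

lemma exists_polar {v : ℝ × ℝ} (hv : v ≠ 0) (a : ℝ) : ∃ r α, 0 < r ∧ a ≤ α ∧ α < a + 2 * π ∧
    v.1 = -(r * sin α) ∧ v.2 = r * cos α := by
  let z : ℂ := ⟨v.2, -v.1⟩
  have hz : z ≠ 0 := fun h => hv (Prod.ext (by simpa [z] using congrArg Complex.im h)
    (by simpa [z] using congrArg Complex.re h))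
  obtain ⟨n, h1, h2⟩ := exists_shift a z.arg
  refine ⟨‖z‖, _, norm_pos_iff.2 hz, h1, h2, ?_, ?_⟩
  · rw [sin_add_int_mul_two_pi, Complex.norm_mul_sin_arg]; simp [z]
  · rw [cos_add_int_mul_two_pi, Complex.norm_mul_cos_arg]

lemma ip_polar {v : ℝ × ℝ} {r α : ℝ} (h1 : v.1 = -(r * sin α)) (h2 : v.2 = r * cos α) :
    (fun θ => ip θ v) = fun θ => r * sin (θ - α) := by
  funext θ
  rw [ip, h1, h2, sin_sub]
  ring

lemma exists_cr_ip {v : ℝ × ℝ} (hv : v ≠ 0) : ∃ α β, Cr (fun θ => ip θ v) α β := by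
  obtain ⟨r, α, hr, -, -, h1, h2⟩ := exists_polar hv 0
  exact ⟨_, _, ip_polar h1 h2 ▸ cr_sin hr α⟩

lemma interl_ip {v w : ℝ × ℝ} (h : 0 < v.1 * w.2 - v.2 * w.1) :
    Interl (fun θ => ip θ v) fun θ => ip θ w := by
  have hv : v ≠ 0 := by rintro rfl; simp at h
  have hw : w ≠ 0 := by rintro rfl; simp at h
  obtain ⟨r, α, hr, -, -, h1, h2⟩ := exists_polar hv 0
  obtain ⟨s, γ, hs, h3, h4, h5, h6⟩ := exists_polar hw α
  have e : v.1 * w.2 - v.2 * w.1 = r * s * sin (γ - α) := by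
    rw [h1, h2, h5, h6, sin_sub]; ring
  rw [e] at h
  have h7 : 0 < sin (γ - α) := (mul_pos_iff_of_pos_left (mul_pos hr hs)).1 h
  have h8 : α < γ := by
    refine h3.lt_of_ne fun h => ?_
    rw [h, sub_self, sin_zero] at h7
    exact h7.false
  have h9 : γ < α + π := by
    by_contra hc
    have := sin_nonpos_of_nonpos_of_neg_pi_le (x := γ - α - 2 * π) (by linarith) (by linarith)
    rw [sin_sub_two_pi] at this
    exact this.not_gt h7
  rw [ip_polar h1 h2, ip_polar h5 h6]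
  exact ⟨α, α + π, γ, γ + π, h8, h9, by linarith, by linarith, cr_sin hr α, cr_sin hs γ⟩

end Pool.Agent.MP_14a896_co
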