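import Mathlib

/-! Simple order types, arrangements of convex bodies, and the number `k_n`. -/

open Set Real

namespace Pool.Agent.MP_14a896_co

/-- A uniform acyclic chirotope of rank three on `Fin n`. -/
structure IsSimpleOrderType {n : ℕ} (χ : Fin n → Fin n → Fin n → SignType) : Prop where
  swap_left : ∀ i j k, χ j i k = -χ i j k
  swap_right : ∀ i j k, χ i k j = -χ i j k
  grassmann_pluecker : ∀ x₁ x₂ x₃ y₁ y₂ y₃, 0 ≤ χ y₁ x₂ x₃ * χ x₁ y₂ y₃ →
    0 ≤ χ y₂ x₂ x₃ * χ y₁ x₁ y₃ → 0 ≤ χ y₃ x₂ x₃ * χ y₁ y₂ x₁ → 0 ≤ χ x₁ x₂ x₃ * χ y₁ y₂ y₃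
  acyclic : ¬ ∃ a b c d, χ b c d = 1 ∧ χ a c d = -1 ∧ χ a b d = 1 ∧ χ a b c = -1
  uniform : ∀ i j k, i ≠ j → i ≠ k → j ≠ k → χ i j k ≠ 0

/-- The inner product of the unit vector of angle `θ` with the point `p`. -/
noncomputable def ip (θ : ℝ) (p : ℝ × ℝ) : ℝ := cos θ * p.1 + sin θ * p.2

/-- The support function. -/
noncomputable def supp (A : Set (ℝ × ℝ)) (θ : ℝ) : ℝ := sSup (ip θ '' A)

/-- The dual support curve, lifted from the cylinder to its universal cover `ℝ × ℝ`. -/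
def dualCurve (A : Set (ℝ × ℝ)) : Set (ℝ × ℝ) := {x | x.2 = supp A x.1}

/-- The line `ip θ p = t` is tangent to `A`, and `A` lies in the half plane `ip θ p ≤ t`. -/
def Supports (A : Set (ℝ × ℝ)) (θ t : ℝ) : Prop := (∀ p ∈ A, ip θ p ≤ t) ∧ ∃ p ∈ A, ip θ p = t

/-- An arrangement of bodies. -/
structure IsArrangement {ι : Type} (A : ι → Set (ℝ × ℝ)) : Prop where
  body : ∀ i, IsCompact (A i) ∧ Convex ℝ (A i) ∧ (A i).Nonempty
  pair : ∀ i j, i ≠ j → ∀ θ t, Supports (A i) θ t → Supports (A j) θ t →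
    ∀ p ∈ A i ∩ A j, ip θ p ≠ t
  triple : ∀ i j k, i ≠ j → i ≠ k → j ≠ k → ∀ θ t,
    ¬ (Supports (A i) θ t ∧ Supports (A j) θ t ∧ Supports (A k) θ t)
  finite : {x : ℝ × ℝ | x.1 ∈ Ico 0 (2 * π) ∧
    ∃ i j, i ≠ j ∧ Supports (A i) x.1 x.2 ∧ Supports (A j) x.1 x.2}.Finite

/-- Same combinatorial type: a homeomorphism of the cylinder, given by its lift `Φ` to the
universal cover, which commutes with the deck translation and preserves the end `+∞` (that is,
it preserves the orientation and that end), carries each dual curve to the corresponding one. -/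
def SameType {ι : Type} (A B : ι → Set (ℝ × ℝ)) : Prop :=
  ∃ Φ : ℝ × ℝ ≃ₜ ℝ × ℝ, (∀ x, Φ (x + (2 * π, 0)) = Φ x + (2 * π, 0)) ∧
    (∀ M, ∃ N, ∀ x : ℝ × ℝ, N ≤ x.2 → M ≤ (Φ x).2) ∧
    ∀ i, Φ '' dualCurve (A i) = dualCurve (B i)

/-- Twice the signed area of the triangle `p q r`. -/
def det3 (p q r : ℝ × ℝ) : ℝ := (q.1 - p.1) * (r.2 - p.2) - (q.2 - p.2) * (r.1 - p.1)

/-- The triple has the combinatorial type of three points in general position. -/
def OrientableTriple (A B C : Set (ℝ × ℝ)) : Prop :=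
  ∃ p q r : ℝ × ℝ, det3 p q r ≠ 0 ∧ SameType ![A, B, C] ![{p}, {q}, {r}]

/-- `A`, `B`, `C` occur counterclockwise in this order on the boundary of the convex hull of
their union: each of them alone supports the hull in some direction, and these outer normal
directions are in counterclockwise order. -/
def Counterclockwise (A B C : Set (ℝ × ℝ)) : Prop :=
  ∃ θ₁ θ₂ θ₃, θ₁ < θ₂ ∧ θ₂ < θ₃ ∧ θ₃ < θ₁ + 2 * π ∧
    (supp B θ₁ < supp A θ₁ ∧ supp C θ₁ < supp A θ₁) ∧
    (supp A θ₂ < supp B θ₂ ∧ supp C θ₂ < supp B θ₂) ∧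
    (supp A θ₃ < supp C θ₃ ∧ supp B θ₃ < supp C θ₃)

/-- A convex polygon with at most `k` vertices. -/
def IsGon (k : ℕ) (A : Set (ℝ × ℝ)) : Prop :=
  ∃ V : Finset (ℝ × ℝ), V.Nonempty ∧ V.card ≤ k ∧ A = convexHull ℝ V

/-- `A` is an orientable arrangement of `k`-gons that realizes `χ`. -/
structure RealizedBy {n : ℕ} (χ : Fin n → Fin n → Fin n → SignType) (k : ℕ)
    (A : Fin n → Set (ℝ × ℝ)) : Prop where
  arrangement : IsArrangement A
  gon : ∀ i, IsGon k (A i)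
  orientable : ∀ i j l, i ≠ j → i ≠ l → j ≠ l → OrientableTriple (A i) (A j) (A l)
  realizes : ∀ i j l, i ≠ j → i ≠ l → j ≠ l → (χ i j l = 1 ↔ Counterclockwise (A i) (A j) (A l))

/-- Every simple order type on `n` elements is realized by an orientable arrangement of
`k`-gons. -/
def Suffices (n k : ℕ) : Prop :=
  ∀ χ : Fin n → Fin n → Fin n → SignType, IsSimpleOrderType χ → ∃ A, RealizedBy χ k A

/-- The number `k_n`. -/
noncomputable def kn (n : ℕ) : ℕ := sInf {k | Suffices n k}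

end Pool.Agent.MP_14a896_co
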