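import Pool.Agent.MP_14a896_co.Model

/-! A fibrewise homeomorphism between three curves with the same order at every angle. -/

open Set Real Filter Topology

namespace Pool.Agent.MP_14a896_co

/-- Stretching the interval `[l, l + w]` to `[l, l + w']`. -/
noncomputable def stretch (l w w' t : ℝ) : ℝ := t + (w' - w) * max 0 (min 1 ((t - l) / w))

lemma stretch_le {l w w' t : ℝ} (hw : 0 ≤ w) (h : t ≤ l) : stretch l w w' t = t := by
  have : (t - l) / w ≤ 0 := div_nonpos_of_nonpos_of_nonneg (by linarith) hw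
  rw [stretch, max_eq_left (min_le_of_right_le this), mul_zero, add_zero]

lemma stretch_ge {l w w' t : ℝ} (hw : 0 ≤ w) (h0 : w = 0 → w' = 0) (h : l + w ≤ t) :
    stretch l w w' t = t + (w' - w) := by
  rcases hw.eq_or_lt with rfl | hw
  · simp [stretch, h0 rfl]
  · have : 1 ≤ (t - l) / w := (one_le_div hw).2 (by linarith)
    rw [stretch, min_eq_left this, max_eq_right zero_le_one, mul_one]

lemma stretch_stretch {l w w' : ℝ} (hw : 0 ≤ w) (hw' : 0 ≤ w') (h0 : w = 0 ↔ w' = 0) (t : ℝ) :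
    stretch l w' w (stretch l w w' t) = t := by
  rcases le_total t l with h | h
  · rw [stretch_le hw h, stretch_le hw' h]
  rcases le_total (l + w) t with h' | h'
  · rw [stretch_ge hw h0.1 h', stretch_ge hw' h0.2 (by linarith)]
    ring
  rcases hw.eq_or_lt with rfl | hw
  · simp [stretch, h0.1 rfl]
  have hw'' : 0 < w' := hw'.lt_of_ne fun e => hw.ne' (h0.2 e.symm)
  have a1 : 0 ≤ (t - l) / w := div_nonneg (by linarith) hw.le
  have a2 : (t - l) / w ≤ 1 := (div_le_one hw).2 (by linarith)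
  have e1 : stretch l w w' t = l + w' * ((t - l) / w) := by
    rw [stretch, min_eq_right a2, max_eq_right a1]
    field_simp
    ring
  have e2 : (l + w' * ((t - l) / w) - l) / w' = (t - l) / w := by
    field_simp
    ring
  rw [e1, stretch, e2, min_eq_right a2, max_eq_right a1]
  field_simp
  ring

lemma continuous_stretch {l w w' : ℝ → ℝ} (hl : Continuous l) (hw : Continuous w)
    (hw' : Continuous w') (h0 : ∀ θ, w θ = 0 → w' θ = 0) :
    Continuous fun x : ℝ × ℝ => stretch (l x.1) (w x.1) (w' x.1) x.2 := by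
  refine continuous_snd.add (continuous_iff_continuousAt.2 fun x => ?_)
  have c1 : Continuous fun x : ℝ × ℝ => w' x.1 - w x.1 := by fun_prop
  by_cases hx : w x.1 = 0
  · have e : w' x.1 - w x.1 = 0 := by rw [hx, h0 _ hx, sub_zero]
    rw [ContinuousAt, e, zero_mul]
    refine squeeze_zero_norm (a := fun x : ℝ × ℝ => ‖w' x.1 - w x.1‖) (fun y => ?_) ?_
    · rw [norm_mul]
      refine mul_le_of_le_one_right (norm_nonneg _) ?_
      rw [Real.norm_of_nonneg (le_max_left _ _)]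
      exact max_le zero_le_one (min_le_left _ _)
    · simpa [e] using (c1.norm.tendsto x)
  · refine c1.continuousAt.mul (continuousAt_const.max (continuousAt_const.min ?_))
    exact ContinuousAt.div (by fun_prop) (by fun_prop) hx

/-- Fibrewise periodic homeomorphisms with bounded displacement. -/
structure Fib (Φ : ℝ × ℝ ≃ₜ ℝ × ℝ) : Prop where
  per : ∀ x, Φ (x + (2 * π, 0)) = Φ x + (2 * π, 0)
  bd : ∃ C, ∀ x : ℝ × ℝ, x.2 - C ≤ (Φ x).2

lemma Fib.trans {Φ Ψ : ℝ × ℝ ≃ₜ ℝ × ℝ} (h : Fib Φ) (h' : Fib Ψ) : Fib (Φ.trans Ψ) := by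
  refine ⟨fun x => by simp only [Homeomorph.trans_apply, h.per, h'.per], ?_⟩
  obtain ⟨C, hC⟩ := h.bd
  obtain ⟨C', hC'⟩ := h'.bd
  refine ⟨C + C', fun x => ?_⟩
  have := hC x
  have := hC' (Φ x)
  simp only [Homeomorph.trans_apply]
  linarith

lemma Per.bound {d : ℝ → ℝ} (h : Per d) (hc : Continuous d) : ∃ C, ∀ θ, |d θ| ≤ C := by
  obtain ⟨C, hC⟩ := (h.isBounded_of_continuous two_pi_pos.ne' hc).exists_norm_le
  exact ⟨C, fun θ => hC _ ⟨θ, rfl⟩⟩

lemma exists_shear {d : ℝ → ℝ} (h : Per d) (hc : Continuous d) :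
    ∃ Φ, Fib Φ ∧ ∀ θ t, Φ (θ, t) = (θ, t + d θ) := by
  refine ⟨⟨⟨fun x => (x.1, x.2 + d x.1), fun x => (x.1, x.2 - d x.1), fun x => by simp,
    fun x => by simp⟩, by fun_prop, by fun_prop⟩, ⟨fun x => ?_, ?_⟩, fun _ _ => rfl⟩
  · simp [h.add]
  · obtain ⟨C, hC⟩ := h.bound hc
    refine ⟨C, fun x => ?_⟩
    have := (abs_le.1 (hC x.1)).1
    show x.2 - C ≤ x.2 + d x.1
    linarith

lemma exists_stretch {l w w' : ℝ → ℝ} (pl : Per l) (pw : Per w) (pw' : Per w')
    (hl : Continuous l) (hw : Continuous w) (hw' : Continuous w') (h1 : ∀ θ, 0 ≤ w θ)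
    (h2 : ∀ θ, 0 ≤ w' θ) (h0 : ∀ θ, w θ = 0 ↔ w' θ = 0) :
    ∃ Φ, Fib Φ ∧ ∀ θ t, Φ (θ, t) = (θ, stretch (l θ) (w θ) (w' θ) t) := by
  refine ⟨⟨⟨fun x => (x.1, stretch (l x.1) (w x.1) (w' x.1) x.2),
    fun x => (x.1, stretch (l x.1) (w' x.1) (w x.1) x.2),
    fun x => Prod.ext rfl (stretch_stretch (h1 _) (h2 _) (h0 _) _),
    fun x => Prod.ext rfl (stretch_stretch (h2 _) (h1 _) (h0 _).symm _)⟩,
    continuous_fst.prodMk (continuous_stretch hl hw hw' fun θ => (h0 θ).1),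
    continuous_fst.prodMk (continuous_stretch hl hw' hw fun θ => (h0 θ).2)⟩,
    ⟨fun x => ?_, ?_⟩, fun _ _ => rfl⟩
  · simp [pl.add, pw.add, pw'.add]
  · obtain ⟨C, hC⟩ := pw.bound hw
    refine ⟨C, fun x => ?_⟩
    have a1 := (abs_le.1 (hC x.1)).2
    have a2 : 0 ≤ max 0 (min 1 ((x.2 - l x.1) / w x.1)) := le_max_left _ _
    have a3 : max 0 (min 1 ((x.2 - l x.1) / w x.1)) ≤ 1 := max_le zero_le_one (min_le_left _ _)
    have a4 := h1 x.1
    have a5 := h2 x.1
    show x.2 - C ≤ stretch _ _ _ _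
    unfold stretch
    nlinarith

/-- The smallest of three numbers. -/
def lo (a : Fin 3 → ℝ) : ℝ := min (a 0) (min (a 1) (a 2))
/-- The largest of three numbers. -/
def hi (a : Fin 3 → ℝ) : ℝ := max (a 0) (max (a 1) (a 2))
/-- The middle one of three numbers. -/
def mid (a : Fin 3 → ℝ) : ℝ := a 0 + a 1 + a 2 - lo a - hi a

lemma sorted3 {a b : Fin 3 → ℝ}
    (h : ∀ i j, SignType.sign (a i - a j) = SignType.sign (b i - b j)) :
    lo a ≤ mid a ∧ mid a ≤ hi a ∧ (mid a = lo a → mid b = lo b) ∧ (hi a = mid a → hi b = mid b) ∧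
      ∀ i, (a i = lo a ∧ b i = lo b) ∨ (a i = mid a ∧ b i = mid b) ∨ (a i = hi a ∧ b i = hi b) := by
  have key : ∀ i j, (a i < a j ∧ b i < b j) ∨ (a i = a j ∧ b i = b j) ∨
      (a j < a i ∧ b j < b i) := by
    intro i j
    have := h i j
    rcases lt_trichotomy (a i - a j) 0 with h1 | h1 | h1
    · rw [_root_.sign_neg h1, eq_comm, sign_eq_neg_one_iff] at this
      exact Or.inl ⟨by linarith, by linarith⟩
    · rw [h1, _root_.sign_zero, eq_comm, _root_.sign_eq_zero_iff] at this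
      exact Or.inr (Or.inl ⟨by linarith, by linarith⟩)
    · rw [_root_.sign_pos h1, eq_comm, sign_eq_one_iff] at this
      exact Or.inr (Or.inr ⟨by linarith, by linarith⟩)
  have k1 := key 0 1
  have k2 := key 0 2
  have k3 := key 1 2
  simp only [Fin.forall_fin_succ, IsEmpty.forall_iff, Fin.succ_zero_eq_one, Fin.succ_one_eq_two,
    and_true, mid, lo, hi, min_def, max_def]
  grind

theorem sameType_of_sign {A B : Fin 3 → Set (ℝ × ℝ)} (hA : ∀ i, Continuous (supp (A i)))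
    (hB : ∀ i, Continuous (supp (B i)))
    (h : ∀ θ i j, SignType.sign (supp (A i) θ - supp (A j) θ) =
      SignType.sign (supp (B i) θ - supp (B j) θ)) : SameType A B := by
  have cl : ∀ {A : Fin 3 → Set (ℝ × ℝ)}, (∀ i, Continuous (supp (A i))) →
      Continuous (fun θ => lo fun i => supp (A i) θ) ∧
      Continuous (fun θ => mid fun i => supp (A i) θ) ∧
      Continuous (fun θ => hi fun i => supp (A i) θ) := fun {A} hA => by
    have h0 := hA 0
    have h1 := hA 1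
    have h2 := hA 2
    unfold mid lo hi
    exact ⟨by fun_prop, by fun_prop, by fun_prop⟩
  have pl : ∀ (A : Fin 3 → Set (ℝ × ℝ)) (F : (Fin 3 → ℝ) → ℝ),
      Per fun θ => F fun i => supp (A i) θ := fun A F θ => by simp only [(per_supp _).add]
  obtain ⟨a1, a2, a3⟩ := cl hA
  obtain ⟨b1, b2, b3⟩ := cl hB
  have s := fun θ => sorted3 (a := fun i => supp (A i) θ) (b := fun i => supp (B i) θ) (h θ)
  have s' := fun θ => sorted3 (a := fun i => supp (B i) θ) (b := fun i => supp (A i) θ)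
    fun i j => (h θ i j).symm
  obtain ⟨Φ₁, f1, e1⟩ := exists_shear ((pl B lo).sub (pl A lo)) (b1.sub a1)
  obtain ⟨Φ₂, f2, e2⟩ := exists_stretch (pl B lo) ((pl A mid).sub (pl A lo))
    ((pl B mid).sub (pl B lo)) b1 (a2.sub a1) (b2.sub b1) (fun θ => sub_nonneg.2 (s θ).1)
    (fun θ => sub_nonneg.2 (s' θ).1)
    fun θ => by rw [sub_eq_zero, sub_eq_zero]; exact ⟨(s θ).2.2.1, (s' θ).2.2.1⟩
  obtain ⟨Φ₃, f3, e3⟩ := exists_stretch (pl B mid) ((pl A hi).sub (pl A mid))
    ((pl B hi).sub (pl B mid)) b2 (a3.sub a2) (b3.sub b2) (fun θ => sub_nonneg.2 (s θ).2.1)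
    (fun θ => sub_nonneg.2 (s' θ).2.1)
    fun θ => by rw [sub_eq_zero, sub_eq_zero]; exact ⟨(s θ).2.2.2.1, (s' θ).2.2.2.1⟩
  have f := (f1.trans f2).trans f3
  have e : ∀ i θ, ((Φ₁.trans Φ₂).trans Φ₃) (θ, supp (A i) θ) = (θ, supp (B i) θ) := by
    intro i θ
    simp only [Homeomorph.trans_apply, e1, e2, e3, Prod.mk.injEq, true_and]
    obtain ⟨t1, t2, t3, t4, t5⟩ := s θ
    obtain ⟨u1, u2, -⟩ := s' θ
    have w1 := sub_nonneg.2 t1
    have w2 := sub_nonneg.2 t2
    have z1 := fun e => sub_eq_zero.2 (t3 (sub_eq_zero.1 e))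
    have z2 := fun e => sub_eq_zero.2 (t4 (sub_eq_zero.1 e))
    rcases t5 i with ⟨v1, v2⟩ | ⟨v1, v2⟩ | ⟨v1, v2⟩
    · rw [stretch_le w1 (by linarith), stretch_le w2 (by linarith)]
      linarith
    · rw [stretch_ge w1 z1 (by linarith), stretch_le w2 (by linarith)]
      linarith
    · rw [stretch_ge w1 z1 (by linarith), stretch_ge w2 z2 (by linarith)]
      linarith
  refine ⟨_, f.per, fun M => ?_, fun i => ?_⟩
  · obtain ⟨C, hC⟩ := f.bd
    exact ⟨M + C, fun x hx => by linarith [hC x]⟩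
  · ext y
    constructor
    · rintro ⟨x, hx, rfl⟩
      rw [show x = (x.1, supp (A i) x.1) from Prod.ext rfl hx, e]
      rfl
    · intro hy
      exact ⟨(y.1, supp (A i) y.1), rfl, (e i y.1).trans (Prod.ext rfl hy.symm)⟩

end Pool.Agent.MP_14a896_co
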