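import Pool.Agent.MP_14a896_co.Defs

/-! A sweep of nine pseudolines that violates the theorem of Pappus. -/

namespace Pool.Agent.MP_14a896_co

/-- Crossing times of a simple non-stretchable arrangement of nine pseudolines. -/
def tg (a b : ℕ) : ℕ :=
  (([[0, 1, 4, 3, 14, 6, 11, 9, 13],
    [1, 0, 29, 19, 28, 24, 22, 18, 26],
    [4, 29, 0, 2, 27, 23, 21, 16, 25],
    [3, 19, 2, 0, 35, 34, 33, 17, 32],
    [14, 28, 27, 35, 0, 5, 10, 8, 12],
    [6, 24, 23, 34, 5, 0, 20, 15, 30],
    [11, 22, 21, 33, 10, 20, 0, 7, 31],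
    [9, 18, 16, 17, 8, 15, 7, 0, 36],
    [13, 26, 25, 32, 12, 30, 31, 36, 0]] : List (List ℕ)).getD a []).getD b 0

lemma tg_symm : ∀ a < 9, ∀ b < 9, tg a b = tg b a := by decide

lemma tg_mono : ∀ c < 9, ∀ b < c, ∀ a < b, (tg a b < tg a c ∧ tg a c < tg b c) ∨
    (tg b c < tg a c ∧ tg a c < tg a b) := by decide

theorem not_stretchable (v : ℕ → ℝ × ℝ)
    (hp : ∀ a b c, a < b → b < c → c < 9 → tg a b < tg b c → 0 < det3 (v a) (v b) (v c))
    (hn : ∀ a b c, a < b → b < c → c < 9 → tg b c < tg a b → 0 < -det3 (v a) (v b) (v c)) :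
    False := by
  have h023 := hn 0 2 3 (by decide) (by decide) (by decide) (by decide)
  have h014 := hp 0 1 4 (by decide) (by decide) (by decide) (by decide)
  have h012 := hp 0 1 2 (by decide) (by decide) (by decide) (by decide)
  have h034 := hp 0 3 4 (by decide) (by decide) (by decide) (by decide)
  have h024 := hp 0 2 4 (by decide) (by decide) (by decide) (by decide)
  have h013 := hp 0 1 3 (by decide) (by decide) (by decide) (by decide)
  have h124 := hn 1 2 4 (by decide) (by decide) (by decide) (by decide)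
  have h025 := hp 0 2 5 (by decide) (by decide) (by decide) (by decide)
  have h125 := hn 1 2 5 (by decide) (by decide) (by decide) (by decide)
  have h245 := hn 2 4 5 (by decide) (by decide) (by decide) (by decide)
  have h256 := hn 2 5 6 (by decide) (by decide) (by decide) (by decide)
  have h145 := hn 1 4 5 (by decide) (by decide) (by decide) (by decide)
  have h156 := hn 1 5 6 (by decide) (by decide) (by decide) (by decide)
  have h456 := hp 4 5 6 (by decide) (by decide) (by decide) (by decide)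
  have h048 := hn 0 4 8 (by decide) (by decide) (by decide) (by decide)
  have h036 := hp 0 3 6 (by decide) (by decide) (by decide) (by decide)
  have h046 := hn 0 4 6 (by decide) (by decide) (by decide) (by decide)
  have h038 := hp 0 3 8 (by decide) (by decide) (by decide) (by decide)
  have h068 := hp 0 6 8 (by decide) (by decide) (by decide) (by decide)
  have h368 := hn 3 6 8 (by decide) (by decide) (by decide) (by decide)
  have h018 := hp 0 1 8 (by decide) (by decide) (by decide) (by decide)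
  have h138 := hp 1 3 8 (by decide) (by decide) (by decide) (by decide)
  have h168 := hp 1 6 8 (by decide) (by decide) (by decide) (by decide)
  have h467 := hn 4 6 7 (by decide) (by decide) (by decide) (by decide)
  have h045 := hn 0 4 5 (by decide) (by decide) (by decide) (by decide)
  have h047 := hn 0 4 7 (by decide) (by decide) (by decide) (by decide)
  have h457 := hp 4 5 7 (by decide) (by decide) (by decide) (by decide)
  have h057 := hp 0 5 7 (by decide) (by decide) (by decide) (by decide)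
  have h147 := hn 1 4 7 (by decide) (by decide) (by decide) (by decide)
  have h017 := hp 0 1 7 (by decide) (by decide) (by decide) (by decide)
  have h157 := hn 1 5 7 (by decide) (by decide) (by decide) (by decide)
  have h137 := hn 1 3 7 (by decide) (by decide) (by decide) (by decide)
  have h015 := hp 0 1 5 (by decide) (by decide) (by decide) (by decide)
  have h135 := hp 1 3 5 (by decide) (by decide) (by decide) (by decide)
  have h158 := hp 1 5 8 (by decide) (by decide) (by decide) (by decide)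
  have h136 := hp 1 3 6 (by decide) (by decide) (by decide) (by decide)
  have r0 : (det3 (v 0) (v 2) (v 4)) * (det3 (v 0) (v 1) (v 3)) <
      (det3 (v 0) (v 1) (v 2)) * (det3 (v 0) (v 3) (v 4)) := by
    have := mul_pos h023 h014
    have e : (det3 (v 0) (v 1) (v 2)) * (det3 (v 0) (v 3) (v 4)) = (det3 (v 0) (v 2) (v 4)) * (det3 (v 0) (v 1) (v 3)) +
        (-det3 (v 0) (v 2) (v 3)) * (det3 (v 0) (v 1) (v 4)) := by
      simp only [det3]; ring
    linarith
  have r1 : (det3 (v 0) (v 1) (v 2)) * (-det3 (v 2) (v 4) (v 5)) <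
      (-det3 (v 1) (v 2) (v 5)) * (det3 (v 0) (v 2) (v 4)) := by
    have := mul_pos h124 h025
    have e : (-det3 (v 1) (v 2) (v 5)) * (det3 (v 0) (v 2) (v 4)) = (det3 (v 0) (v 1) (v 2)) * (-det3 (v 2) (v 4) (v 5)) +
        (-det3 (v 1) (v 2) (v 4)) * (det3 (v 0) (v 2) (v 5)) := by
      simp only [det3]; ring
    linarith
  have r2 : (-det3 (v 1) (v 2) (v 5)) * (det3 (v 4) (v 5) (v 6)) <
      (-det3 (v 2) (v 4) (v 5)) * (-det3 (v 1) (v 5) (v 6)) := by
    have := mul_pos h256 h145
    have e : (-det3 (v 2) (v 4) (v 5)) * (-det3 (v 1) (v 5) (v 6)) = (-det3 (v 1) (v 2) (v 5)) * (det3 (v 4) (v 5) (v 6)) +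
        (-det3 (v 2) (v 5) (v 6)) * (-det3 (v 1) (v 4) (v 5)) := by
      simp only [det3]; ring
    linarith
  have r3 : (det3 (v 0) (v 3) (v 4)) * (det3 (v 0) (v 6) (v 8)) <
      (-det3 (v 0) (v 4) (v 6)) * (det3 (v 0) (v 3) (v 8)) := by
    have := mul_pos h048 h036
    have e : (-det3 (v 0) (v 4) (v 6)) * (det3 (v 0) (v 3) (v 8)) = (det3 (v 0) (v 3) (v 4)) * (det3 (v 0) (v 6) (v 8)) +
        (-det3 (v 0) (v 4) (v 8)) * (det3 (v 0) (v 3) (v 6)) := by
      simp only [det3]; ring
    linarith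
  have r4 : (det3 (v 0) (v 3) (v 8)) * (det3 (v 1) (v 6) (v 8)) <
      (det3 (v 1) (v 3) (v 8)) * (det3 (v 0) (v 6) (v 8)) := by
    have := mul_pos h368 h018
    have e : (det3 (v 1) (v 3) (v 8)) * (det3 (v 0) (v 6) (v 8)) = (det3 (v 0) (v 3) (v 8)) * (det3 (v 1) (v 6) (v 8)) +
        (-det3 (v 3) (v 6) (v 8)) * (det3 (v 0) (v 1) (v 8)) := by
      simp only [det3]; ring
    linarith
  have r5 : (-det3 (v 0) (v 4) (v 6)) * (det3 (v 4) (v 5) (v 7)) <
      (det3 (v 4) (v 5) (v 6)) * (-det3 (v 0) (v 4) (v 7)) := by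
    have := mul_pos h467 h045
    have e : (det3 (v 4) (v 5) (v 6)) * (-det3 (v 0) (v 4) (v 7)) = (-det3 (v 0) (v 4) (v 6)) * (det3 (v 4) (v 5) (v 7)) +
        (-det3 (v 4) (v 6) (v 7)) * (-det3 (v 0) (v 4) (v 5)) := by
      simp only [det3]; ring
    linarith
  have r6 : (-det3 (v 0) (v 4) (v 7)) * (-det3 (v 1) (v 5) (v 7)) <
      (det3 (v 0) (v 1) (v 7)) * (det3 (v 4) (v 5) (v 7)) := by
    have := mul_pos h057 h147
    have e : (det3 (v 0) (v 1) (v 7)) * (det3 (v 4) (v 5) (v 7)) = (-det3 (v 0) (v 4) (v 7)) * (-det3 (v 1) (v 5) (v 7)) +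
        (det3 (v 0) (v 5) (v 7)) * (-det3 (v 1) (v 4) (v 7)) := by
      simp only [det3]; ring
    linarith
  have r7 : (det3 (v 1) (v 3) (v 5)) * (det3 (v 0) (v 1) (v 7)) <
      (det3 (v 0) (v 1) (v 3)) * (-det3 (v 1) (v 5) (v 7)) := by
    have := mul_pos h137 h015
    have e : (det3 (v 0) (v 1) (v 3)) * (-det3 (v 1) (v 5) (v 7)) = (det3 (v 1) (v 3) (v 5)) * (det3 (v 0) (v 1) (v 7)) +
        (-det3 (v 1) (v 3) (v 7)) * (det3 (v 0) (v 1) (v 5)) := by
      simp only [det3]; ring
    linarith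
  have r8 : (-det3 (v 1) (v 5) (v 6)) * (det3 (v 1) (v 3) (v 8)) <
      (det3 (v 1) (v 3) (v 5)) * (det3 (v 1) (v 6) (v 8)) := by
    have := mul_pos h158 h136
    have e : (det3 (v 1) (v 3) (v 5)) * (det3 (v 1) (v 6) (v 8)) = (-det3 (v 1) (v 5) (v 6)) * (det3 (v 1) (v 3) (v 8)) +
        (det3 (v 1) (v 5) (v 8)) * (det3 (v 1) (v 3) (v 6)) := by
      simp only [det3]; ring
    linarith
  have q0 := mul_pos h024 h013
  have s0 := r0
  have s1 := mul_lt_mul'' s0 r1 q0.le (mul_pos h012 h245).le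
  have q1 := mul_pos q0 (mul_pos h012 h245)
  have s2 := mul_lt_mul'' s1 r2 q1.le (mul_pos h125 h456).le
  have q2 := mul_pos q1 (mul_pos h125 h456)
  have s3 := mul_lt_mul'' s2 r3 q2.le (mul_pos h034 h068).le
  have q3 := mul_pos q2 (mul_pos h034 h068)
  have s4 := mul_lt_mul'' s3 r4 q3.le (mul_pos h038 h168).le
  have q4 := mul_pos q3 (mul_pos h038 h168)
  have s5 := mul_lt_mul'' s4 r5 q4.le (mul_pos h046 h457).le
  have q5 := mul_pos q4 (mul_pos h046 h457)
  have s6 := mul_lt_mul'' s5 r6 q5.le (mul_pos h047 h157).le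
  have q6 := mul_pos q5 (mul_pos h047 h157)
  have s7 := mul_lt_mul'' s6 r7 q6.le (mul_pos h135 h017).le
  have q7 := mul_pos q6 (mul_pos h135 h017)
  have s8 := mul_lt_mul'' s7 r8 q7.le (mul_pos h156 h138).le
  exact s8.ne (by ring)

end Pool.Agent.MP_14a896_co
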