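import Pool.Agent.MP_14a896_co.Chi
import Pool.Agent.MP_14a896_co.Pappus

/-! Crossing angles of a realization of a sweep, and a counting bound. -/

open Set Real

namespace Pool.Agent.MP_14a896_co

lemma Interl.at {d e : ℝ → ℝ} (hd : Per d) (he : Per e) (h : Interl d e) {α β : ℝ}
    (k : Cr d α β) : ∃ γ δ, α < γ ∧ γ < β ∧ β < δ ∧ δ < α + 2 * π ∧ Cr e γ δ := by
  obtain ⟨α', β', γ, δ, h1, h2, h3, h4, h5, h6⟩ := h
  obtain ⟨z, rfl, rfl⟩ := k.unique hd h5
  exact ⟨_, _, by linarith, by linarith, by linarith, by linarith, h6.shift he z⟩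

lemma int_eq_zero {z : ℤ} (h1 : -(2 * π) < z * (2 * π)) (h2 : z * (2 * π) < 2 * π) : z = 0 := by
  have := two_pi_pos
  have a1 : (-1 : ℝ) < z := by nlinarith
  have a2 : (z : ℝ) < 1 := by nlinarith
  have a3 : -1 < z := by exact_mod_cast a1
  have a4 : z < 1 := by exact_mod_cast a2
  omega

lemma Cr.eq_of_mem {d : ℝ → ℝ} (hd : Per d) {α β γ δ a : ℝ} (h : Cr d α β) (h' : Cr d γ δ)
    (h1 : a ≤ α) (h2 : α < a + 2 * π) (h3 : a ≤ γ) (h4 : γ < a + 2 * π) : α = γ ∧ β = δ := by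
  obtain ⟨z, e1, e2⟩ := h.unique hd h'
  obtain rfl : z = 0 := int_eq_zero (by linarith) (by linarith)
  simpa using And.intro e1 e2

lemma exists_lift {ι : Type} (S : Finset ι) (hS : S.Nonempty) (τ : ι → ℝ)
    (hτ : ∀ j ∈ S, ∀ k ∈ S, j ≠ k → τ j ≠ τ k) {d : ι → ℝ → ℝ} (hd : ∀ j, Per (d j))
    (cr : ∀ j ∈ S, ∃ α β, Cr (d j) α β)
    (int : ∀ j ∈ S, ∀ k ∈ S, τ j < τ k → Interl (d j) (d k)) :
    ∃ (a : ℝ) (α β : ι → ℝ), (∀ j ∈ S, Cr (d j) (α j) (β j) ∧ a ≤ α j ∧ α j < a + 2 * π) ∧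
      ∀ j ∈ S, ∀ k ∈ S, τ j < τ k → α j < α k ∧ α k < β j := by
  obtain ⟨j₀, h₀, hm⟩ := S.exists_min_image τ hS
  obtain ⟨a, b, hab⟩ := cr j₀ h₀
  have : ∀ j ∈ S, ∃ α β, Cr (d j) α β ∧ a ≤ α ∧ α < a + 2 * π := fun j hj => by
    obtain ⟨α, β, h⟩ := cr j hj
    obtain ⟨z, h1, h2⟩ := exists_shift a α
    exact ⟨_, _, h.shift (hd j) z, h1, h2⟩
  choose! α β h using this
  have p := two_pi_pos
  have hb : ∀ j ∈ S, β j < a + 2 * π := fun j hj => by
    rcases eq_or_ne j₀ j with rfl | e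
    · rw [((h _ hj).1.eq_of_mem (hd _) hab (h _ hj).2.1 (h _ hj).2.2 le_rfl (by linarith)).2]
      exact hab.lt'
    · obtain ⟨γ, δ, h1, h2, h3, h4, h5⟩ :=
        (int _ h₀ _ hj ((hm j hj).lt_of_ne (hτ _ h₀ _ hj e))).at (hd _) (hd _) hab
      rwa [((h _ hj).1.eq_of_mem (hd _) h5 (h _ hj).2.1 (h _ hj).2.2 h1.le (by linarith)).2]
  refine ⟨a, α, β, h, fun j hj k hk hjk => ?_⟩
  obtain ⟨γ, δ, h1, h2, h3, h4, h5⟩ := (int _ hj _ hk hjk).at (hd _) (hd _) (h j hj).1
  rw [((h _ hk).1.eq_of_mem (hd _) h5 (h _ hk).2.1 (h _ hk).2.2 (by linarith [(h j hj).2.1])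
    (by linarith [hb j hj])).1]
  exact ⟨h1, h2⟩

lemma polar_of_ip {x : ℝ} {v : ℝ × ℝ} (h : ip x v = 0) :
    ∃ r, v.1 = -(r * sin x) ∧ v.2 = r * cos x := by
  unfold ip at h
  refine ⟨cos x * v.2 - sin x * v.1, ?_, ?_⟩
  · linear_combination cos x * h - v.1 * sin_sq_add_cos_sq x
  · linear_combination sin x * h - v.2 * sin_sq_add_cos_sq x

lemma det3_pos {x y z : ℝ} {p q r : ℝ × ℝ} (xy : x < y) (yz : y < z) (zx : z < x + π)
    (h1 : ip x q = ip x p) (h2 : ip y r = ip y p) (h3 : ip z r = ip z q) (h4 : ip y q ≠ ip y p) :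
    0 < det3 p q r := by
  obtain ⟨a, a1, a2⟩ := polar_of_ip (x := x) (v := q - p) (by rw [ip_sub, h1, sub_self])
  obtain ⟨b, b1, b2⟩ := polar_of_ip (x := z) (v := r - q) (by rw [ip_sub, h3, sub_self])
  have e1 := congrFun (ip_polar a1 a2) y
  have e2 := congrFun (ip_polar b1 b2) y
  rw [ip_sub] at e1 e2
  rw [← neg_sub z, sin_neg] at e2
  have s1 : 0 < sin (y - x) := sin_pos_of_pos_of_lt_pi (by linarith) (by linarith)
  have s2 : 0 < sin (z - y) := sin_pos_of_pos_of_lt_pi (by linarith) (by linarith)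
  have s3 : 0 < sin (z - x) := sin_pos_of_pos_of_lt_pi (by linarith) (by linarith)
  have e3 : det3 p q r = a * b * sin (z - x) := by
    have : det3 p q r = (q - p).1 * (r - q).2 - (q - p).2 * (r - q).1 := by
      simp only [det3, Prod.fst_sub, Prod.snd_sub]; ring
    rw [this, a1, a2, b1, b2, sin_sub]
    ring
  have e4 : a * b * (sin (y - x) * sin (z - y)) = (ip y q - ip y p) ^ 2 := by
    linear_combination (-(b * sin (z - y))) * e1 + (ip y q - ip y p) * (e2 - h2)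
  rw [e3]
  exact mul_pos (pos_of_mul_pos_left (e4 ▸ sq_pos_of_ne_zero (sub_ne_zero.2 h4))
    (mul_pos s1 s2).le) s3

lemma supp_between {V : Finset (ℝ × ℝ)} {v : ℝ × ℝ} (hv : v ∈ V) {s s' θ : ℝ}
    (h1 : ∀ w ∈ V, ip s w ≤ ip s v) (h2 : ∀ w ∈ V, ip s' w ≤ ip s' v) (a1 : s ≤ θ) (a2 : θ ≤ s')
    (a3 : s < s') (a4 : s' < s + π) : supp (convexHull ℝ (V : Set (ℝ × ℝ))) θ = ip θ v := by
  refine (supports_hull (fun w hw => ?_) ⟨v, hv, rfl⟩).eq
  have e : ∀ p, sin (s' - s) * ip θ p = sin (s' - θ) * ip s p + sin (θ - s) * ip s' p := fun p => by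
    simp only [ip, sin_sub]
    ring
  have s1 : 0 < sin (s' - s) := sin_pos_of_pos_of_lt_pi (by linarith) (by linarith)
  have s2 : 0 ≤ sin (s' - θ) := sin_nonneg_of_nonneg_of_le_pi (by linarith) (by linarith)
  have s3 : 0 ≤ sin (θ - s) := sin_nonneg_of_nonneg_of_le_pi (by linarith) (by linarith)
  refine le_of_mul_le_mul_left ?_ s1
  rw [e, e]
  exact add_le_add (mul_le_mul_of_nonneg_left (h1 w hw) s2) (mul_le_mul_of_nonneg_left (h2 w hw) s3)

variable {n k : ℕ} {T : Fin n → Fin n → ℝ} {A : Fin n → Set (ℝ × ℝ)}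

/-- The support function of the body with the larger label minus that of the other one. -/
noncomputable def gap (A : Fin n → Set (ℝ × ℝ)) (i j : Fin n) (θ : ℝ) : ℝ :=
  if i < j then supp (A j) θ - supp (A i) θ else -(supp (A j) θ - supp (A i) θ)

lemma gap_of_lt {i j : Fin n} (h : i < j) : gap A i j = fun θ => supp (A j) θ - supp (A i) θ :=
  funext fun _ => if_pos h

lemma gap_of_gt {i j : Fin n} (h : j < i) :
    gap A i j = fun θ => -(supp (A j) θ - supp (A i) θ) :=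
  funext fun _ => if_neg h.not_gt

lemma gap_symm (i j : Fin n) : gap A i j = gap A j i := by
  rcases lt_trichotomy i j with h | rfl | h
  · simp only [gap_of_lt h, gap_of_gt h, neg_sub]
  · rfl
  · simp only [gap_of_lt h, gap_of_gt h, neg_sub]

lemma per_gap (i j : Fin n) : Per (gap A i j) := fun θ => by simp only [gap, (per_supp _).add]

lemma gap_eq_zero {i j : Fin n} {θ : ℝ} : gap A i j θ = 0 ↔ supp (A j) θ = supp (A i) θ := by
  unfold gap
  split_ifs
  · exact sub_eq_zero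
  · rw [neg_eq_zero, sub_eq_zero]

lemma RealizedBy.interl (h : RealizedBy (chi T) k A) {i j l : Fin n} (ij : i ≠ j) (il : i ≠ l)
    (hT : T i j < T i l) : Interl (gap A i j) (gap A i l) := by
  have jl : j ≠ l := by rintro rfl; exact hT.false
  have key : ∀ {j l}, i ≠ j → i ≠ l → j ≠ l → 0 < df i j * df i l * (T i l - T i j) →
      Interl (fun θ => supp (A j) θ - supp (A i) θ) fun θ => supp (A l) θ - supp (A i) θ :=
    fun ij il jl e => (h.orientable _ _ _ ij il jl).interl (h.gon _).continuous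
      (h.gon _).continuous (h.gon _).continuous ((h.realizes _ _ _ ij il jl).1 (_root_.sign_pos e))
  have p : ∀ j, Per fun θ => supp (A j) θ - supp (A i) θ := fun j => (per_supp _).sub (per_supp _)
  rcases ij.lt_or_gt with a | a <;> rcases il.lt_or_gt with b | b
  · rw [gap_of_lt a, gap_of_lt b]
    exact key ij il jl (mul_pos (mul_pos (df_pos a) (df_pos b)) (sub_pos.2 hT))
  · rw [gap_of_lt a, gap_of_gt b]
    exact (key il ij jl.symm (mul_pos_of_neg_of_neg (mul_neg_of_neg_of_pos (df_neg b) (df_pos a))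
      (sub_neg.2 hT))).rot (p _)
  · rw [gap_of_gt a, gap_of_lt b]
    simpa only [neg_neg] using (((key il ij jl.symm (mul_pos_of_neg_of_neg
      (mul_neg_of_pos_of_neg (df_pos b) (df_neg a)) (sub_neg.2 hT))).rot (p _)).rot (p _)).rot
      (p _).neg
  · rw [gap_of_gt a, gap_of_gt b]
    exact ((key ij il jl (mul_pos (mul_pos_of_neg_of_neg (df_neg a) (df_neg b))
      (sub_pos.2 hT))).rot (p _)).rot (p _)

lemma RealizedBy.lift (h : RealizedBy (chi T) k A) (hT : Sweep T) (hn : 3 ≤ n) (i : Fin n) :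
    ∃ (a : ℝ) (α β : Fin n → ℝ),
      (∀ j, i ≠ j → Cr (gap A i j) (α j) (β j) ∧ a ≤ α j ∧ α j < a + 2 * π) ∧
      ∀ j l, i ≠ j → i ≠ l → T i j < T i l → α j < α l ∧ α l < β j := by
  have ne : ∀ j l, i ≠ j → i ≠ l → j ≠ l → T i j ≠ T i l := fun j l ij il jl e =>
    hT.pre.uniform i j l ij il jl (by simp [chi, e])
  have ex : ∀ j, ∃ l, i ≠ l ∧ j ≠ l := fun j => by
    obtain ⟨l, -, hl⟩ := Finset.exists_mem_notMem_of_card_lt_card (s := {i, j}) (t := Finset.univ)
      (Finset.card_le_two.trans_lt (by simp; omega))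
    simp only [Finset.mem_insert, Finset.mem_singleton, not_or] at hl
    exact ⟨l, Ne.symm hl.1, Ne.symm hl.2⟩
  obtain ⟨a, α, β, h1, h2⟩ := exists_lift (Finset.univ.filter fun j => i ≠ j)
    ((ex i).imp fun l hl => by simpa using hl.1) (T i) (by simpa using fun j ij l => ne j l ij)
    (per_gap (A := A) i) (fun j hj => by
      have ij : i ≠ j := by simpa using hj
      obtain ⟨l, il, jl⟩ := ex j
      rcases (ne j l ij il jl).lt_or_gt with e | e
      · obtain ⟨α, β, γ, δ, -, -, -, -, h5, -⟩ := h.interl ij il e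
        exact ⟨_, _, h5⟩
      · obtain ⟨α, β, γ, δ, -, -, -, -, -, h5⟩ := h.interl il ij e
        exact ⟨_, _, h5⟩)
    fun j hj l hl => h.interl (by simpa using hj) (by simpa using hl)
  exact ⟨a, α, β, by simpa using h1, fun j l ij il => h2 j (by simpa using ij) l (by simpa using il)⟩

/-- Between the angles `x` and `y`, which are close, the vertex `v` supports `A`. -/
def Flat (A : Set (ℝ × ℝ)) (v : ℝ × ℝ) (x y : ℝ) : Prop :=
  y < x + π / 3 ∧ ∀ θ, x ≤ θ → θ ≤ y → supp A θ = ip θ v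

lemma det3_pos_of_flat {α β : Fin n → Fin n → ℝ} {p q r : Fin n} {u v w : ℝ × ℝ}
    (cr : ∀ i j, i ≠ j → Cr (gap A i j) (α i j) (β i j)) (pq : p ≠ q) (pr : p ≠ r) (qr : q ≠ r)
    (h1 : α p q < α p r) (h1' : α p r < β p q) (h2 : α q p < α q r) (h3 : α r p < α r q)
    (fu : Flat (A p) u (α p q) (α p r)) (fv : Flat (A q) v (α q p) (α q r))
    (fw : Flat (A r) w (α r p) (α r q)) : 0 < det3 u v w := by
  obtain ⟨z₁, e1, -⟩ := (cr r p pr.symm).unique (per_gap _ _) (gap_symm p r ▸ cr p r pr)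
  obtain ⟨z₂, e2, -⟩ := (cr q p pq.symm).unique (per_gap _ _) (gap_symm p q ▸ cr p q pq)
  obtain ⟨z₃, e3, -⟩ := (cr q r qr).unique (per_gap _ _) (gap_symm r q ▸ cr r q qr.symm)
  have := pi_pos
  have e4 : z₁ + z₃ - z₂ = 0 := by
    refine int_eq_zero ?_ ?_ <;> push_cast <;> linarith [fu.1, fv.1, fw.1]
  have e5 : (z₁ : ℝ) + z₃ - z₂ = 0 := by exact_mod_cast e4
  obtain ⟨z, hz⟩ : ∃ z, α r q = z + z₁ * (2 * π) := ⟨_, (sub_add_cancel _ _).symm⟩
  have e6 : α q r = z + z₂ * (2 * π) := by linear_combination e3 + hz + (2 * π) * e5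
  have k : ∀ {B : Set (ℝ × ℝ)} {v x y}, Flat B v x y → ∀ (z : ℤ) θ, x ≤ θ + z * (2 * π) →
      θ + z * (2 * π) ≤ y → supp B θ = ip θ v := fun f z θ a1 a2 => by
    rw [← (per_supp _).int z, f.2 _ a1 a2, (per_ip _).int z]
  have c1 := gap_eq_zero.1 (cr p q pq).za
  have c2 := gap_eq_zero.1 (cr p r pr).za
  have c3 := gap_eq_zero.1 (cr r q qr.symm).za
  have c4 := mt gap_eq_zero.2 ((cr p q pq).pos _ h1 h1').ne'
  rw [hz, (per_supp _).int, (per_supp _).int] at c3
  rw [fu.2 _ le_rfl h1.le, k fv z₂ _ (by linarith) (by linarith)] at c1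
  rw [fu.2 _ h1.le le_rfl, k fw z₁ _ (by linarith) (by linarith)] at c2
  rw [k fv z₂ _ (by linarith) (by linarith), k fw z₁ _ (by linarith) (by linarith)] at c3
  rw [fu.2 _ h1.le le_rfl, k fv z₂ _ (by linarith) (by linarith)] at c4
  exact det3_pos h1 (by linarith) (by linarith [fu.1, fw.1]) c1 c2 c3.symm c4

theorem RealizedBy.count (h : RealizedBy (chi T) k A) (hT : Sweep T) (hn : 3 ≤ n) {Λ : Type}
    [Fintype Λ] (e : Λ → ℕ → Fin n) (inj : ∀ l, ∀ a < 9, ∀ b < 9, a ≠ b → e l a ≠ e l b)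
    (ord : ∀ l, ∀ a < 9, ∀ b < 9, ∀ c < 9, a ≠ b → a ≠ c → tg a b < tg a c →
      T (e l a) (e l b) < T (e l a) (e l c))
    (sep : ∀ l l', l ≠ l' → ∀ a < 9, ∀ a' < 9, e l a = e l' a' →
      (∀ b < 9, ∀ b' < 9, a ≠ b → a' ≠ b' → T (e l a) (e l b) < T (e l' a') (e l' b')) ∨
      ∀ b' < 9, ∀ b < 9, a' ≠ b' → a ≠ b → T (e l' a') (e l' b') < T (e l a) (e l b)) :
    Fintype.card Λ ≤ n * (6 * k) := by
  classical
  choose o α β h1 h2 using h.lift hT hn
  choose V V1 V2 V3 using h.gon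
  have bad : ∀ l, ∃ a < 9, ∀ v, ¬ ∀ b < 9, ∀ c < 9, a ≠ b → a ≠ c →
      Flat (A (e l a)) v (α (e l a) (e l b)) (α (e l a) (e l c)) := by
    intro l
    by_contra hc
    choose! v hv using fun a ha => not_forall_not.1 (not_and.1 (not_exists.1 hc a) ha)
    have key : ∀ a < 9, ∀ b < 9, ∀ c < 9, a ≠ b → a ≠ c → b ≠ c → tg a b < tg a c →
        tg a c < tg b c → 0 < det3 (v a) (v b) (v c) := by
      intro a ha b hb c hc ab ac bc t1 t2
      have k1 := h2 _ _ _ (inj l a ha b hb ab) (inj l a ha c hc ac) (ord l a ha b hb c hc ab ac t1)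
      refine det3_pos_of_flat (fun i j ij => (h1 i j ij).1) (inj l a ha b hb ab)
        (inj l a ha c hc ac) (inj l b hb c hc bc) k1.1 k1.2
        (h2 _ _ _ (inj l b hb a ha ab.symm) (inj l b hb c hc bc)
          (ord l b hb a ha c hc ab.symm bc ?_)).1
        (h2 _ _ _ (inj l c hc a ha ac.symm) (inj l c hc b hb bc.symm)
          (ord l c hc a ha b hb ac.symm bc.symm ?_)).1
        (hv a ha b hb c hc ab ac) (hv b hb a ha c hc ab.symm bc) (hv c hc a ha b hb ac.symm bc.symm)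
      · rw [tg_symm b hb a ha]
        exact t1.trans t2
      · rwa [tg_symm c hc a ha, tg_symm c hc b hb]
    refine not_stretchable v (fun a b c ab bc hc t => ?_) fun a b c ab bc hc t => ?_
    · have := (tg_mono c hc b bc a ab).resolve_right (by omega)
      exact key a (by omega) b (by omega) c hc ab.ne (by omega) bc.ne this.1 this.2
    · have := (tg_mono c hc b bc a ab).resolve_left (by omega)
      have := key c hc b (by omega) a (by omega) bc.ne' (by omega) ab.ne'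
        (by rw [tg_symm c hc b (by omega), tg_symm c hc a (by omega)]; exact this.1)
        (by rw [tg_symm c hc a (by omega), tg_symm b (by omega) a (by omega)]; exact this.2)
      convert this using 1
      simp only [det3]
      ring
  choose a ha bad using bad
  have first : ∀ l, ∃ b < 9, a l ≠ b ∧ ∀ c < 9, a l ≠ c →
      α (e l (a l)) (e l b) ≤ α (e l (a l)) (e l c) := fun l => by
    obtain ⟨b, hb, hm⟩ := ((Finset.range 9).filter fun b => a l ≠ b).exists_min_image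
      (fun b => α (e l (a l)) (e l b)) ⟨if a l = 0 then 1 else 0, by
        simp only [Finset.mem_filter, Finset.mem_range]
        split_ifs <;> omega⟩
    simp only [Finset.mem_filter, Finset.mem_range, and_imp] at hb hm
    exact ⟨b, hb.1, hb.2, hm⟩
  choose b hb ab first using first
  choose v v1 v2 v3 using fun l => exists_vertex (V1 (e l (a l))) (α (e l (a l)) (e l (b l)))
  by_contra hc
  have p3 : 0 < π / 3 := by positivity
  obtain ⟨l, -, l', -, ll, eq⟩ := Finset.exists_ne_map_eq_of_card_lt_of_maps_to (s := Finset.univ)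
    (t := Finset.univ.biUnion fun i => (Finset.range 6 ×ˢ V i).image (Prod.mk i))
    (f := fun l => (e l (a l), ⌊(α (e l (a l)) (e l (b l)) - o (e l (a l))) / (π / 3)⌋₊, v l))
    (((Finset.card_biUnion_le_card_mul _ _ (6 * k) fun i _ => Finset.card_image_le.trans (by
      simpa using V2 i)).trans_eq (by simp)).trans_lt (not_le.1 hc)) fun l _ => by
      have := (h1 _ _ (inj l _ (ha l) _ (hb l) (ab l))).2
      simp only [Finset.coe_biUnion, Finset.coe_univ, mem_univ, iUnion_true, mem_iUnion,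
        Finset.mem_coe]
      refine ⟨_, Finset.mem_image_of_mem _ (Finset.mem_product.2 ⟨Finset.mem_range.2 ?_, v1 l⟩)⟩
      rw [Nat.floor_lt (div_nonneg (by linarith) p3.le), div_lt_iff₀ p3]
      push_cast
      linarith
  simp only [Prod.mk.injEq] at eq
  wlog hlt : ∀ c < 9, ∀ c' < 9, a l ≠ c → a l' ≠ c' →
      T (e l (a l)) (e l c) < T (e l' (a l')) (e l' c') generalizing l l'
  · exact this l' l ll.symm ⟨eq.1.symm, eq.2.1.symm, eq.2.2.symm⟩
      ((sep l l' ll _ (ha l) _ (ha l') eq.1).resolve_left hlt)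
  obtain ⟨e1, e2, e3⟩ := eq
  have n1 := inj l' _ (ha l') _ (hb l') (ab l')
  have v4 := v3 l'
  rw [← e3] at v4
  rw [← e1] at hlt e2 n1 v4
  have lt : ∀ c < 9, a l ≠ c → α (e l (a l)) (e l c) < α (e l (a l)) (e l' (b l')) := fun c hc ac =>
    (h2 _ _ _ (inj l _ (ha l) c hc ac) n1 (hlt c hc _ (hb l') ac (ab l'))).1
  have near : α (e l (a l)) (e l' (b l')) < α (e l (a l)) (e l (b l)) + π / 3 := by
    have k1 := Nat.lt_floor_add_one ((α (e l (a l)) (e l' (b l')) - o (e l (a l))) / (π / 3))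
    have k2 := Nat.floor_le (div_nonneg (sub_nonneg.2
      (h1 _ _ (inj l _ (ha l) _ (hb l) (ab l))).2.1) p3.le)
    rw [← e2, div_lt_iff₀ p3] at k1
    rw [le_div_iff₀ p3] at k2
    linarith
  refine bad l (v l) fun c hc c' hc' ac ac' => ⟨?_, fun θ t1 t2 => ?_⟩
  · linarith [lt c' hc' ac', first l c hc ac]
  · rw [V3]
    exact supp_between (v1 l) (v3 l) v4 ((first l c hc ac).trans t1) (t2.trans (lt c' hc' ac').le)
      (lt _ (hb l) (ab l)) (by linarith)

end Pool.Agent.MP_14a896_co
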