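import Pool.Agent.MP_14a896_co.Lift

/-! A simple order type on `n` elements that needs polygons with a linear number of vertices. -/

open Set Real Filter Topology

namespace Pool.Agent.MP_14a896_co

lemma exists_lex {α : Type} [Finite α] (S E : α → ℝ) :
    ∃ δ : ℝ, 0 < δ ∧ ∀ p q, S p < S q → S p + δ * E p < S q + δ * E q := by
  have : ∀ᶠ δ : ℝ in 𝓝 0, ∀ p q, S p < S q → S p + δ * E p < S q + δ * E q := by
    refine eventually_all.2 fun p => eventually_all.2 fun q => ?_
    by_cases h : S p < S q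
    · exact (ContinuousAt.eventually_lt (f := fun δ : ℝ => S p + δ * E p)
        (g := fun δ : ℝ => S q + δ * E q) (by fun_prop) (by fun_prop) (by simpa using h)).mono
        fun δ hδ _ => hδ
    · exact Eventually.of_forall fun δ h' => absurd h' h
  obtain ⟨δ, h1, h2⟩ := ((this.filter_mono nhdsWithin_le_nhds).and
    (self_mem_nhdsWithin (s := Ioi (0 : ℝ)))).exists
  exact ⟨δ, h2, h1⟩

variable {n : ℕ}

/-- The slope between the points `(i, y i)` and `(j, y j)`. -/
noncomputable def slp (y : Fin n → ℕ) (i j : Fin n) : ℝ := ((y j : ℝ) - y i) / df i j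

/-- The tie-breaking rule for collinear points. -/
noncomputable def tie (y : Fin n → ℕ) (i j : Fin n) : ℝ :=
  if y i = y j then ((i : ℕ) : ℝ) + (j : ℕ) else tg (y i) (y j)

lemma exists_sweep (y : Fin n → ℕ) (hy : Monotone y) (h9 : ∀ i, y i < 9) :
    ∃ T : Fin n → Fin n → ℝ, Sweep T ∧
      (∀ i j k l, slp y i j < slp y k l → T i j < T k l) ∧
      ∀ i j k l, slp y i j = slp y k l → tie y i j < tie y k l → T i j < T k l := by
  obtain ⟨δ, hδ, h⟩ := exists_lex (fun p : Fin n × Fin n => slp y p.1 p.2) fun p => tie y p.1 p.2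
  have h1 : ∀ i j k l, slp y i j < slp y k l →
      slp y i j + δ * tie y i j < slp y k l + δ * tie y k l := fun i j k l => h (i, j) (k, l)
  have h2 : ∀ i j k l, slp y i j = slp y k l → tie y i j < tie y k l →
      slp y i j + δ * tie y i j < slp y k l + δ * tie y k l := fun i j k l e e' => by
    nlinarith
  refine ⟨fun i j => slp y i j + δ * tie y i j, ⟨fun i j => ?_, fun i j k ij jk => ?_⟩, h1, h2⟩
  · congr 1
    · rw [slp, slp, df, df, ← neg_div_neg_eq, neg_sub, neg_sub]
    · simp only [tie, eq_comm (a := y j), add_comm, tg_symm _ (h9 i) _ (h9 j)]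
  have a1 := df_pos ij
  have a2 := df_pos jk
  have b1 : slp y i j * df i j = y j - y i := div_mul_cancel₀ _ a1.ne'
  have b2 : slp y j k * df j k = y k - y j := div_mul_cancel₀ _ a2.ne'
  have b3 : slp y i k * (df i j + df j k) = slp y i j * df i j + slp y j k * df j k := by
    rw [b1, b2, show df i j + df j k = df i k by simp [df], slp,
      div_mul_cancel₀ _ (df_pos (ij.trans jk)).ne']
    ring
  rcases lt_trichotomy (slp y i j) (slp y j k) with c | c | c
  · exact Or.inl ⟨h1 _ _ _ _ (by nlinarith), h1 _ _ _ _ (by nlinarith)⟩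
  swap
  · exact Or.inr ⟨h1 _ _ _ _ (by nlinarith), h1 _ _ _ _ (by nlinarith)⟩
  have c' : slp y i k = slp y i j := mul_right_cancel₀ (add_pos a1 a2).ne' (by rw [b3, ← c]; ring)
  rcases (hy ij.le).eq_or_lt with d | d
  · have d' : y j = y k := by
      have : slp y j k = 0 := by rw [← c, slp, d, sub_self, zero_div]
      rw [this, zero_mul, eq_comm, sub_eq_zero] at b2
      exact_mod_cast b2.symm
    refine Or.inl ⟨h2 _ _ _ _ c'.symm ?_, h2 _ _ _ _ (c'.trans c) ?_⟩
    · simpa [tie, d, d'] using jk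
    · simpa [tie, d, d'] using ij
  · have d' : y j < y k := by
      have : 0 < slp y j k := c ▸ div_pos (sub_pos.2 (Nat.cast_lt.2 d)) a1
      exact_mod_cast sub_pos.1 (b2 ▸ mul_pos this a2)
    refine (tg_mono _ (h9 k) _ d' _ d).imp
      (fun t => ⟨h2 _ _ _ _ c'.symm ?_, h2 _ _ _ _ (c'.trans c) ?_⟩)
      fun t => ⟨h2 _ _ _ _ (c'.trans c).symm ?_, h2 _ _ _ _ c' ?_⟩
    · simpa [tie, d.ne, (d.trans d').ne] using t.1
    · simpa [tie, d'.ne, (d.trans d').ne] using t.2
    · simpa [tie, d'.ne, (d.trans d').ne] using t.1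
    · simpa [tie, d.ne, (d.trans d').ne] using t.2

theorem Suffices.grid {k q : ℕ} (h : Suffices n k) (hn : 3 ≤ n) (hq : 144 * q ≤ n) :
    1 ≤ k ∧ 8 * q * q ≤ n * (6 * k) := by
  let y : Fin n → ℕ := fun i => min (i / (16 * q)) 8
  obtain ⟨T, hT, h1, h2⟩ := exists_sweep y
    (fun i j ij => min_le_min_right _ (Nat.div_le_div_right ij))
    fun i => (min_le_right _ _).trans_lt (by norm_num)
  obtain ⟨A, hA⟩ := h _ hT.isSimpleOrderType
  constructor
  · obtain ⟨V, hV, hk, -⟩ := hA.gon ⟨0, by omega⟩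
    exact hV.card_pos.trans_le hk
  let e : Fin (8 * q) × Fin q → ℕ → Fin n := fun l a => ⟨min a 8 * (16 * q + l.2) + l.1, by
    have := l.1.2
    have := l.2.2
    have := Nat.mul_le_mul_right (16 * q + l.2) (min_le_right a 8)
    omega⟩
  have ev : ∀ l, ∀ a < 9, (e l a : ℕ) = a * (16 * q + l.2) + l.1 := fun l a ha => by
    simp only [e, min_eq_left (Nat.le_of_lt_succ ha)]
  have ey : ∀ l, ∀ a < 9, y (e l a) = a := fun l a ha => by
    have := l.1.2
    have := l.2.2
    have := Nat.mul_le_mul_right l.2 (Nat.le_of_lt_succ ha)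
    have : (e l a : ℕ) / (16 * q) = a := by
      rw [ev l a ha]
      refine Nat.div_eq_of_lt_le ?_ ?_ <;> simp only [mul_add, add_mul] <;> omega
    simp only [y, this, min_eq_left (Nat.le_of_lt_succ ha)]
  have es : ∀ l, ∀ a < 9, ∀ b < 9, a ≠ b →
      slp y (e l a) (e l b) = 1 / ((16 * q + l.2 : ℕ) : ℝ) := fun l a ha b hb ab => by
    have : (b : ℝ) - a ≠ 0 := sub_ne_zero.2 (Nat.cast_injective.ne ab.symm)
    rw [slp, df, ey l a ha, ey l b hb, ev l a ha, ev l b hb, Nat.cast_add, Nat.cast_add (a * _),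
      add_sub_add_right_eq_sub, Nat.cast_mul, Nat.cast_mul a, ← sub_mul, div_mul_cancel_left₀ this,
      one_div]
  have pos : ∀ l : Fin (8 * q) × Fin q, (0 : ℝ) < (16 * q + l.2 : ℕ) := fun l => by
    have := l.2.2
    exact Nat.cast_pos.2 (by omega)
  simpa using hA.count hT hn e (fun l a ha b hb ab e' => ab (by rw [← ey l a ha, e', ey l b hb]))
    (fun l a ha b hb c hc ab ac t => h2 _ _ _ _ (by rw [es l a ha b hb ab, es l a ha c hc ac])
      (by simpa [tie, ey l a ha, ey l b hb, ey l c hc, ab, ac] using t))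
    fun l l' ll a ha a' ha' e' => by
      obtain rfl : a = a' := by rw [← ey l a ha, e', ey l' a' ha']
      have ne : l.2 ≠ l'.2 := fun e'' => ll (Prod.ext (Fin.ext (by
        have := congrArg Fin.val e'
        rw [ev l a ha, ev l' a ha, e''] at this
        omega)) e'')
      rcases ne.lt_or_gt with c | c
      · refine Or.inr fun b' hb' b hb ab' ab => h1 _ _ _ _ ?_
        rw [es l a ha b hb ab, es l' a ha b' hb' ab']
        exact one_div_lt_one_div_of_lt (pos l) (Nat.cast_lt.2 (Nat.add_lt_add_left c _))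
      · refine Or.inl fun b hb b' hb' ab ab' => h1 _ _ _ _ ?_
        rw [es l a ha b hb ab, es l' a ha b' hb' ab']
        exact one_div_lt_one_div_of_lt (pos l') (Nat.cast_lt.2 (Nat.add_lt_add_left c _))

theorem Suffices.lower {k : ℕ} (h : Suffices n k) (hn : 3 ≤ n) : n ≤ 20000 * k := by
  obtain ⟨h1, h2⟩ := h.grid hn (Nat.mul_div_le n 144)
  rcases le_or_gt n 20000 with h3 | h3
  · omega
  have h4 : n ≤ 146 * (n / 144) := by omega
  generalize n / 144 = q at h2 h4
  refine le_of_mul_le_mul_left (a := n) ?_ (by omega)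
  nlinarith [Nat.mul_le_mul h4 h4, Nat.zero_le (n * k)]

end Pool.Agent.MP_14a896_co
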