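import Pool.Agent.MP_14a896_co.Cross

/-! Support functions of polygons; the crossing structure of an orientable triple. -/

open Set Real

namespace Pool.Agent.MP_14a896_co

lemma ip_add_two_pi (θ : ℝ) : ip (θ + 2 * π) = ip θ := by
  funext p; simp [ip]

lemma per_ip (p : ℝ × ℝ) : Per fun θ => ip θ p := fun θ => by simp only [ip_add_two_pi]

lemma per_supp (A : Set (ℝ × ℝ)) : Per (supp A) := fun θ => by simp only [supp, ip_add_two_pi]

lemma ip_sub (θ : ℝ) (p q : ℝ × ℝ) : ip θ (p - q) = ip θ p - ip θ q := by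
  simp [ip]; ring

lemma continuous_ip (p : ℝ × ℝ) : Continuous fun θ => ip θ p := by
  unfold ip; fun_prop

lemma supp_singleton (p : ℝ × ℝ) (θ : ℝ) : supp {p} θ = ip θ p := by simp [supp]

lemma Supports.eq {A : Set (ℝ × ℝ)} {θ t : ℝ} (h : Supports A θ t) : supp A θ = t := by
  refine IsGreatest.csSup_eq ⟨?_, ?_⟩
  · obtain ⟨p, hp, e⟩ := h.2
    exact ⟨p, hp, e⟩
  · rintro _ ⟨p, hp, rfl⟩
    exact h.1 p hp

lemma supports_hull {V : Finset (ℝ × ℝ)} {θ t : ℝ} (h1 : ∀ v ∈ V, ip θ v ≤ t)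
    (h2 : ∃ v ∈ V, ip θ v = t) : Supports (convexHull ℝ (V : Set (ℝ × ℝ))) θ t := by
  refine ⟨convexHull_min h1 (convex_halfSpace_le (f := ip θ) ⟨fun p q => ?_, fun c p => ?_⟩ t), ?_⟩
  · simp [ip]; ring
  · simp [ip]; ring
  · obtain ⟨v, hv, e⟩ := h2
    exact ⟨v, subset_convexHull _ _ hv, e⟩

lemma exists_vertex {V : Finset (ℝ × ℝ)} (hV : V.Nonempty) (θ : ℝ) :
    ∃ v ∈ V, supp (convexHull ℝ (V : Set (ℝ × ℝ))) θ = ip θ v ∧ ∀ w ∈ V, ip θ w ≤ ip θ v := by
  obtain ⟨v, hv, h⟩ := V.exists_max_image (ip θ) hV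
  exact ⟨v, hv, (supports_hull h ⟨v, hv, rfl⟩).eq, h⟩

lemma le_supp_vertex {V : Finset (ℝ × ℝ)} {w : ℝ × ℝ} (hw : w ∈ V) (θ : ℝ) :
    ip θ w ≤ supp (convexHull ℝ (V : Set (ℝ × ℝ))) θ := by
  obtain ⟨v, -, h1, h2⟩ := exists_vertex ⟨w, hw⟩ θ
  exact h1 ▸ h2 w hw

lemma supports_supp {V : Finset (ℝ × ℝ)} (hV : V.Nonempty) (θ : ℝ) :
    Supports (convexHull ℝ (V : Set (ℝ × ℝ))) θ (supp (convexHull ℝ (V : Set (ℝ × ℝ))) θ) := by
  obtain ⟨v, hv, h1, h2⟩ := exists_vertex hV θ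
  exact supports_hull (h1 ▸ h2) ⟨v, hv, h1.symm⟩

lemma continuous_supp_hull {V : Finset (ℝ × ℝ)} (hV : V.Nonempty) :
    Continuous (supp (convexHull ℝ (V : Set (ℝ × ℝ)))) := by
  have : supp (convexHull ℝ (V : Set (ℝ × ℝ))) = fun θ => V.sup' hV fun v => ip θ v := by
    funext θ
    obtain ⟨v, hv, h1, h2⟩ := exists_vertex hV θ
    rw [h1]
    exact le_antisymm (Finset.le_sup' (fun v => ip θ v) hv) (Finset.sup'_le _ _ h2)
  rw [this]
  exact Continuous.finset_sup'_apply hV fun v _ => continuous_ip v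

lemma IsGon.continuous {k : ℕ} {A : Set (ℝ × ℝ)} (h : IsGon k A) : Continuous (supp A) := by
  obtain ⟨V, hV, -, rfl⟩ := h
  exact continuous_supp_hull hV

lemma continuous_supp_singleton (p : ℝ × ℝ) : Continuous (supp {p}) := by
  have : supp {p} = fun θ => ip θ p := funext (supp_singleton p)
  rw [this]; exact continuous_ip p

section homeo

variable {Φ : ℝ × ℝ ≃ₜ ℝ × ℝ} {a b : ℝ → ℝ}

lemma sign_homeo (hend : ∀ M, ∃ N, ∀ x : ℝ × ℝ, N ≤ x.2 → M ≤ (Φ x).2) (ha : Continuous a)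
    (hb : Continuous b) (hb' : Per b) (h : Φ '' {x | x.2 = a x.1} = {x | x.2 = b x.1})
    (x : ℝ × ℝ) : SignType.sign (x.2 - a x.1) = SignType.sign ((Φ x).2 - b (Φ x).1) := by
  have hg : ∀ x : ℝ × ℝ, (Φ x).2 = b (Φ x).1 ↔ x.2 = a x.1 := fun x => by
    have : Φ x ∈ Φ '' {x | x.2 = a x.1} ↔ x ∈ {x : ℝ × ℝ | x.2 = a x.1} :=
      Φ.injective.mem_set_image
    rw [h] at this
    exact this
  have hU : IsOpen {y : ℝ × ℝ | b y.1 < y.2} := isOpen_lt (hb.comp continuous_fst) continuous_snd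
  have hL : IsOpen {y : ℝ × ℝ | y.2 < b y.1} := isOpen_lt continuous_snd (hb.comp continuous_fst)
  have hd : Disjoint {y : ℝ × ℝ | b y.1 < y.2} {y : ℝ × ℝ | y.2 < b y.1} :=
    disjoint_left.2 fun y h1 h2 => lt_asymm (show b y.1 < y.2 from h1) (show y.2 < b y.1 from h2)
  have key : ∀ S : Set ℝ, IsPreconnected S → (0 : ℝ) ∉ S →
      (∀ x : ℝ × ℝ, x.2 - a x.1 ∈ S → b (Φ x).1 < (Φ x).2) ∨
      ∀ x : ℝ × ℝ, x.2 - a x.1 ∈ S → (Φ x).2 < b (Φ x).1 := by
    intro S hS h0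
    have hc : Continuous fun y : ℝ × ℝ => Φ (y.1, a y.1 + y.2) := by fun_prop
    have h1 := (isPreconnected_univ.prod hS).image _ hc.continuousOn
    have h2 := h1.subset_or_subset hU hL hd (by
      rintro _ ⟨y, hy, rfl⟩
      have : (Φ (y.1, a y.1 + y.2)).2 ≠ b (Φ (y.1, a y.1 + y.2)).1 := fun e => by
        have e' := (hg _).1 e
        simp only [add_eq_left] at e'
        exact h0 (e' ▸ hy.2)
      exact this.lt_or_gt.symm)
    have h3 : ∀ x : ℝ × ℝ, x.2 - a x.1 ∈ S →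
        Φ x ∈ (fun y : ℝ × ℝ => Φ (y.1, a y.1 + y.2)) '' univ ×ˢ S := fun x hx =>
      ⟨(x.1, x.2 - a x.1), ⟨trivial, hx⟩, by simp⟩
    exact h2.imp (fun h x hx => h (h3 x hx)) fun h x hx => h (h3 x hx)
  have up : ∀ x : ℝ × ℝ, 0 < x.2 - a x.1 → b (Φ x).1 < (Φ x).2 := by
    refine (key (Ioi 0) isPreconnected_Ioi (by simp)).resolve_right fun hc => ?_
    obtain ⟨M, hM⟩ := (hb'.isBounded_of_continuous two_pi_pos.ne' hb).bddAbove
    obtain ⟨N, hN⟩ := hend M
    have h1 := hc (0, max N (a 0 + 1)) (by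
      have := le_max_right N (a 0 + 1)
      simp only [mem_Ioi]
      linarith)
    exact (h1.trans_le (hM ⟨_, rfl⟩)).not_ge (hN _ (le_max_left _ _))
  have down : ∀ x : ℝ × ℝ, x.2 - a x.1 < 0 → (Φ x).2 < b (Φ x).1 := by
    refine (key (Iio 0) isPreconnected_Iio (by simp)).resolve_left fun hc => ?_
    obtain ⟨x, hx⟩ := Φ.surjective (0, b 0 - 1)
    rcases lt_trichotomy (x.2 - a x.1) 0 with h1 | h1 | h1
    · have := hc x h1
      rw [hx] at this
      linarith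
    · have := (hg x).2 (sub_eq_zero.1 h1)
      rw [hx] at this
      linarith
    · have := up x h1
      rw [hx] at this
      linarith
  rcases lt_trichotomy (x.2 - a x.1) 0 with h1 | h1 | h1
  · rw [_root_.sign_neg h1, _root_.sign_neg (sub_neg.2 (down x h1))]
  · rw [h1, (hg x).2 (sub_eq_zero.1 h1), sub_self]
  · rw [_root_.sign_pos h1, _root_.sign_pos (sub_pos.2 (up x h1))]

lemma exists_param (hper : ∀ x, Φ (x + (2 * π, 0)) = Φ x + (2 * π, 0)) (ha : Continuous a)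
    (ha' : Per a) (h : Φ '' {x | x.2 = a x.1} = {x | x.2 = b x.1}) :
    ∃ φ : ℝ ≃o ℝ, (∀ θ, φ (θ + 2 * π) = φ θ + 2 * π) ∧ ∀ θ, Φ (θ, a θ) = (φ θ, b (φ θ)) := by
  let f : ℝ → ℝ := fun θ => (Φ (θ, a θ)).1
  have h1 : ∀ θ, Φ (θ, a θ) = (f θ, b (f θ)) := fun θ => by
    have : Φ (θ, a θ) ∈ {x : ℝ × ℝ | x.2 = b x.1} := h ▸ mem_image_of_mem _ rfl
    exact Prod.ext rfl this
  have hc : Continuous f := by fun_prop
  have hi : Function.Injective f := fun s t e => by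
    have : Φ (s, a s) = Φ (t, a t) := by rw [h1, h1, e]
    exact congrArg Prod.fst (Φ.injective this)
  have hs : Function.Surjective f := fun y => by
    have : (y, b y) ∈ Φ '' {x | x.2 = a x.1} := h ▸ rfl
    obtain ⟨x, hx, e⟩ := this
    refine ⟨x.1, ?_⟩
    have e' : (x.1, a x.1) = x := Prod.ext rfl hx.symm
    simp only [f, e', e]
  have hp : ∀ θ, f (θ + 2 * π) = f θ + 2 * π := fun θ => by
    have := congrArg Prod.fst (hper (θ, a θ))
    simpa [f, ha'.add] using this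
  have hm : StrictMono f := by
    refine (hc.strictMono_of_inj hi).resolve_right fun hc => ?_
    have := hc (show (0 : ℝ) < 0 + 2 * π by linarith [pi_pos])
    rw [hp] at this
    linarith [pi_pos]
  exact ⟨hm.orderIsoOfSurjective f hs, hp, h1⟩

end homeo

lemma SameType.param {ι : Type} {A B : ι → Set (ℝ × ℝ)} (h : SameType A B)
    (hA : ∀ i, Continuous (supp (A i))) (hB : ∀ i, Continuous (supp (B i))) (l : ι) :
    ∃ φ : ℝ ≃o ℝ, (∀ θ, φ (θ + 2 * π) = φ θ + 2 * π) ∧ ∀ m θ,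
      SignType.sign (supp (A m) θ - supp (A l) θ) =
        SignType.sign (supp (B m) (φ θ) - supp (B l) (φ θ)) := by
  obtain ⟨Φ, h1, h2, h3⟩ := h
  obtain ⟨φ, h4, h5⟩ := exists_param h1 (hA l) (per_supp _) (h3 l)
  refine ⟨φ, h4, fun m θ => ?_⟩
  have := sign_homeo h2 (hA m) (hB m) (per_supp _) (h3 m) (θ, supp (A l) θ)
  rw [h5] at this
  rw [← neg_sub, Left.sign_neg, this, ← Left.sign_neg, neg_sub]

lemma SameType.swap {A B C A' B' C' : Set (ℝ × ℝ)} (h : SameType ![A, B, C] ![A', B', C']) :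
    SameType ![A, C, B] ![A', C', B'] := by
  obtain ⟨Φ, h1, h2, h3⟩ := h
  refine ⟨Φ, h1, h2, fun i => ?_⟩
  fin_cases i
  · exact h3 0
  · exact h3 2
  · exact h3 1

lemma det3_swap (p q r : ℝ × ℝ) : det3 p r q = -det3 p q r := by simp [det3]; ring

lemma model_pos {A B C : Set (ℝ × ℝ)} (hA : Continuous (supp A)) (hB : Continuous (supp B))
    (hC : Continuous (supp C)) {p q r : ℝ × ℝ} (h : SameType ![A, B, C] ![{p}, {q}, {r}])
    (hd : 0 < det3 p q r) :
    Interl (fun θ => supp B θ - supp A θ) (fun θ => supp C θ - supp A θ) ∧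
      Counterclockwise A B C ∧ ¬ Counterclockwise A C B := by
  have c1 : ∀ i, Continuous (supp (![A, B, C] i)) := fun i => by fin_cases i <;> assumption
  have c2 : ∀ i, Continuous (supp (![{p}, {q}, {r}] i)) := fun i => by
    fin_cases i <;> exact continuous_supp_singleton _
  obtain ⟨φ, h1, h2⟩ := h.param c1 c2 0
  obtain ⟨ψ, h3, h4⟩ := h.param c1 c2 1
  have k1 : Interl (fun θ => supp B θ - supp A θ) (fun θ => supp C θ - supp A θ) := by
    refine (interl_ip (v := q - p) (w := r - p) hd).transfer h1 (fun θ => ?_) fun θ => ?_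
    · simpa [supp_singleton, ip_sub] using h2 1 θ
    · simpa [supp_singleton, ip_sub] using h2 2 θ
  obtain ⟨μ, ν, k2⟩ := exists_cr_ip (v := r - q) (by
    intro e
    rw [sub_eq_zero.1 e] at hd
    simp [det3, mul_comm] at hd)
  have k3 : Cr (fun θ => supp C θ - supp B θ) (ψ.symm μ) (ψ.symm ν) :=
    k2.transfer h3 fun θ => by simpa [supp_singleton, ip_sub] using h4 2 θ
  exact ⟨k1, k1.ccw (per_supp _) (per_supp _) (per_supp _),
    k1.not_ccw (per_supp _) (per_supp _) (per_supp _) k3⟩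

lemma model_iff {A B C : Set (ℝ × ℝ)} (hA : Continuous (supp A)) (hB : Continuous (supp B))
    (hC : Continuous (supp C)) {p q r : ℝ × ℝ} (h : SameType ![A, B, C] ![{p}, {q}, {r}])
    (hd : det3 p q r ≠ 0) : Counterclockwise A B C ↔ 0 < det3 p q r := by
  refine ⟨fun hc => hd.lt_or_gt.resolve_left fun hn => ?_, fun hp => (model_pos hA hB hC h hp).2.1⟩
  exact (model_pos hA hC hB h.swap (by rw [det3_swap]; linarith)).2.2 hc

lemma OrientableTriple.interl {A B C : Set (ℝ × ℝ)} (h : OrientableTriple A B C)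
    (hA : Continuous (supp A)) (hB : Continuous (supp B)) (hC : Continuous (supp C))
    (hc : Counterclockwise A B C) :
    Interl (fun θ => supp B θ - supp A θ) (fun θ => supp C θ - supp A θ) := by
  obtain ⟨p, q, r, hd, h⟩ := h
  exact (model_pos hA hB hC h ((model_iff hA hB hC h hd).1 hc)).1

end Pool.Agent.MP_14a896_co
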