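import Pool.Agent.MP_14a896_co.Defs

/-! From a simple order type to a sorted labelling and crossing times. -/

open Set Real

namespace Pool.Agent.MP_14a896_co

lemma rank_lt {ι : Type} (S : Finset ι) (r : ι → ι → Prop) [DecidableRel r] (irr : ∀ a, ¬ r a a)
    (tr : ∀ a ∈ S, ∀ b ∈ S, ∀ c ∈ S, r a b → r b c → r a c) {a b : ι} (ha : a ∈ S) (hb : b ∈ S)
    (h : r a b) : (S.filter fun x => r x a).card < (S.filter fun x => r x b).card := by
  refine Finset.card_lt_card ⟨fun x hx => ?_, fun hc => ?_⟩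
  · rw [Finset.mem_filter] at hx ⊢
    exact ⟨hx.1, tr x hx.1 a ha b hb hx.2 h⟩
  · exact irr a (Finset.mem_filter.1 (hc (Finset.mem_filter.2 ⟨ha, h⟩))).2

namespace IsSimpleOrderType

variable {n : ℕ} {χ : Fin n → Fin n → Fin n → SignType} (h : IsSimpleOrderType χ)
include h

lemma cyc (i j k : Fin n) : χ j k i = χ i j k := by
  rw [h.swap_right, h.swap_left, neg_neg]

lemma zero₁ (i k : Fin n) : χ i i k = 0 := by
  have := h.swap_left i i k
  revert this
  generalize χ i i k = s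
  revert s
  decide

lemma zero₂ (i k : Fin n) : χ i k k = 0 := by rw [← h.cyc, h.zero₁]

lemma zero₃ (i k : Fin n) : χ i k i = 0 := by rw [h.cyc, h.zero₁]

lemma ne_of {i j k : Fin n} (e : χ i j k = 1) : i ≠ j ∧ i ≠ k ∧ j ≠ k := by
  refine ⟨?_, ?_, ?_⟩ <;> rintro rfl
  · simp [h.zero₁] at e
  · simp [h.zero₃] at e
  · simp [h.zero₂] at e

lemma pm {i j k : Fin n} (h1 : i ≠ j) (h2 : i ≠ k) (h3 : j ≠ k) : χ i j k = 1 ∨ χ i j k = -1 := by
  have := h.uniform i j k h1 h2 h3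
  revert this
  generalize χ i j k = s
  revert s
  decide

lemma total {t a b : Fin n} (h1 : t ≠ a) (h2 : t ≠ b) (h3 : a ≠ b) :
    χ t a b = 1 ∨ χ t b a = 1 :=
  (h.pm h1 h2 h3).imp id fun e => by rw [h.swap_right, e, neg_neg]

lemma trans_of {t a b c : Fin n} (nc : χ t a b = 1 → χ t b c = 1 → χ t c a ≠ 1)
    (h1 : χ t a b = 1) (h2 : χ t b c = 1) : χ t a c = 1 := by
  refine (h.total (h.ne_of h1).1 (h.ne_of h2).2.1 ?_).resolve_right (nc h1 h2)
  rintro rfl
  rw [h.swap_right, h1] at h2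
  exact absurd h2 (by decide)

lemma no_cycle {p q t x y z : Fin n} (ht : χ p q t = -1) (hx : 0 ≤ χ p q x) (hy : 0 ≤ χ p q y)
    (hz : 0 ≤ χ p q z) (h1 : χ t x y = 1) (h2 : χ t y z = 1) : χ t z x ≠ 1 := by
  intro h3
  have h4 : χ x y z = 1 := by
    refine (h.pm (h.ne_of h1).2.2 (h.ne_of h3).2.2.symm (h.ne_of h2).2.2).resolve_right fun e => ?_
    exact h.acyclic ⟨x, y, z, t, by rw [h.cyc, h2], by rw [h.cyc, h.swap_right, h3],
      by rw [h.cyc, h1], e⟩
  have := h.grassmann_pluecker t p q x y z (by rwa [h2, mul_one, ← h.cyc])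
    (by rwa [← h.cyc x, h3, mul_one, ← h.cyc]) (by rwa [h.cyc t, h1, mul_one, ← h.cyc])
  rw [← h.cyc, ht, h4] at this
  exact absurd this (by decide)

lemma no_cycle' {p q x y z : Fin n} (hq : ∀ r, 0 ≤ χ p q r) (hpq : p ≠ q) (h1 : χ p x y = 1)
    (h2 : χ p y z = 1) : χ p z x ≠ 1 := by
  intro h3
  have key : ∀ x y z, χ p x y = 1 → χ p y z = 1 → χ p z x = 1 → q = x := by
    intro x y z h1 h2 h3
    by_contra hc
    have h4 := h.grassmann_pluecker x p q p z y (by simp [h.zero₁])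
      (by rw [h1, mul_one, ← h.cyc]; exact hq _) (by rw [h3, mul_one, ← h.cyc]; exact hq _)
    have h5 := h.uniform p q x hpq (h.ne_of h1).1 hc
    have h6 := hq x
    rw [← h.cyc, h.swap_right p y z, h2] at h4
    revert h4 h5 h6
    generalize χ p q x = s
    revert s
    decide
  exact (h.ne_of h1).2.2 ((key x y z h1 h2 h3).symm.trans (key y z x h2 h3 h1))

lemma exists_edge (S : Finset (Fin n)) (hS : 1 < S.card) :
    ∃ p q, p ≠ q ∧ ∀ r ∈ S, 0 ≤ χ p q r := by
  suffices key : ∀ S : Finset (Fin n), ∀ p q, p ≠ q → ∃ p q, p ≠ q ∧ ∀ r ∈ S, 0 ≤ χ p q r by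
    obtain ⟨p, -, q, -, hpq⟩ := Finset.one_lt_card.1 hS
    exact key S p q hpq
  intro S p₀ q₀ h₀
  induction S using Finset.induction_on with
  | empty => exact ⟨p₀, q₀, h₀, by simp⟩
  | insert t S ht ih =>
    obtain ⟨p, q, hpq, hr⟩ := ih
    by_cases hc : 0 ≤ χ p q t
    · exact ⟨p, q, hpq, by simpa [hc] using hr⟩
    have e : χ p q t = -1 := by
      revert hc
      generalize χ p q t = s
      revert s
      decide
    have hr' : ∀ r ∈ insert p S, 0 ≤ χ p q r := by simpa [h.zero₃] using hr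
    have ht' : ∀ r ∈ insert p S, t ≠ r := by
      rintro r hr rfl
      exact hc (hr' _ hr)
    obtain ⟨u, hu, hm⟩ := (insert p S).exists_min_image
      (fun b => ((insert p S).filter fun x => χ t x b = 1).card) (Finset.insert_nonempty _ _)
    refine ⟨t, u, ht' u hu, fun r hr => ?_⟩
    rcases Finset.mem_insert.1 hr with rfl | hr
    · rw [h.zero₃]
    rcases eq_or_ne u r with rfl | hur
    · rw [h.zero₂]
    have hr := Finset.mem_insert_of_mem (b := p) hr
    rcases h.total (ht' u hu) (ht' r hr) hur with e' | e'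
    · rw [e']; decide
    · refine absurd (hm r hr) (not_le.2 (rank_lt _ (fun a b => χ t a b = 1)
        (fun a => by simp [h.zero₂]) (fun a ha b hb c hc => ?_) hr hu e'))
      exact h.trans_of (h.no_cycle e (hr' a ha) (hr' b hb) (hr' c hc))

lemma gp3 (p a b c d : Fin n) (h1 : 0 ≤ χ p a b * χ p c d) (h2 : 0 ≤ χ p a d * χ p b c) :
    0 ≤ χ p a c * χ p b d := by
  have := h.grassmann_pluecker c p a p b d (by simp [h.zero₁]) (by rwa [← h.cyc])
    (by rwa [← h.cyc])
  rwa [← h.cyc] at this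

set_option synthInstance.maxSize 4000 in
lemma sig {a b c d e : Fin n} (bc : χ a b c = 1) (bd : χ a b d = 1) (be : χ a b e = 1)
    (cd : χ a c d = 1) (ce : χ a c e = 1) (de : χ a d e = 1) :
    (χ b c e ≤ χ b c d ∧ χ b d e ≤ χ b c e ∧ χ c d e ≤ χ b d e) ∨
      (χ b c d ≤ χ b c e ∧ χ b c e ≤ χ b d e ∧ χ b d e ≤ χ c d e) := by
  have g1 := h.gp3 b a c d e
  have g2 := h.gp3 b a e d c
  have g3 := h.gp3 e a b c d
  have g4 := h.gp3 e a d c b
  have g5 := h.gp3 c a b d e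
  have g6 := h.gp3 c a e d b
  rw [h.swap_right b c d, h.swap_right b d e, h.swap_right b c e] at g2
  rw [h.swap_right e b c, h.swap_right e c d, h.swap_right e b d] at g4
  rw [h.swap_right c b d, h.swap_right c d e, h.swap_right c b e] at g6
  rw [h.swap_left a b c, h.swap_left a b d, h.swap_left a b e, bc, bd, be] at g1 g2
  rw [← h.cyc e a b, ← h.cyc e a c, ← h.cyc e a d, ← h.cyc e c d, ← h.cyc e b d, ← h.cyc e b c,
    be, ce, de] at g3 g4
  rw [← h.cyc c a b, h.swap_left a c d, h.swap_left a c e, h.swap_left b c d, h.swap_left b c e,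
    bc, cd, ce] at g5 g6
  have n1 := h.uniform b c d (h.ne_of bc).2.2 (h.ne_of bd).2.2 (h.ne_of cd).2.2
  have n2 := h.uniform b c e (h.ne_of bc).2.2 (h.ne_of be).2.2 (h.ne_of ce).2.2
  have n3 := h.uniform b d e (h.ne_of bd).2.2 (h.ne_of be).2.2 (h.ne_of de).2.2
  have n4 := h.uniform c d e (h.ne_of cd).2.2 (h.ne_of ce).2.2 (h.ne_of de).2.2
  revert g1 g2 g3 g4 g5 g6 n1 n2 n3 n4
  generalize χ b c d = s₁
  generalize χ b c e = s₂
  generalize χ b d e = s₃
  generalize χ c d e = s₄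
  revert s₁ s₂ s₃ s₄
  decide

/-- A labelling in which the order type is a signotope. -/
lemma exists_rank (hn : 1 < n) : ∃ ρ : Fin n → ℕ, ρ.Injective ∧ ∀ b c d e, ρ b < ρ c → ρ c < ρ d →
    ρ d < ρ e → (χ b c e ≤ χ b c d ∧ χ b d e ≤ χ b c e ∧ χ c d e ≤ χ b d e) ∨
      (χ b c d ≤ χ b c e ∧ χ b c e ≤ χ b d e ∧ χ b d e ≤ χ c d e) := by
  obtain ⟨p, q, hpq, hq⟩ := h.exists_edge Finset.univ (by simpa using hn)
  let r : Fin n → Fin n → Prop := fun a b => (a = p ∧ b ≠ p) ∨ χ p a b = 1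
  have irr : ∀ a, ¬ r a a := fun a => by simp [r, h.zero₂]
  have tr : ∀ a b c, r a b → r b c → r a c := by
    rintro a b c (h1 | h1) (h2 | h2)
    · exact absurd h2.1 h1.2
    · exact Or.inl ⟨h1.1, (h.ne_of h2).2.1.symm⟩
    · exact absurd h2.1 (h.ne_of h1).2.1.symm
    · exact Or.inr (h.trans_of (h.no_cycle' (fun r => hq r (Finset.mem_univ _)) hpq) h1 h2)
  have tot : ∀ a b, a ≠ b → r a b ∨ r b a := fun a b hab => by
    rcases eq_or_ne p a with rfl | ha
    · exact Or.inl (Or.inl ⟨rfl, hab.symm⟩)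
    rcases eq_or_ne p b with rfl | hb
    · exact Or.inr (Or.inl ⟨rfl, hab⟩)
    exact (h.total ha hb hab).imp Or.inr Or.inr
  let ρ : Fin n → ℕ := fun b => (Finset.univ.filter fun x => r x b).card
  have lt : ∀ a b, r a b → ρ a < ρ b := fun a b hab =>
    rank_lt _ r irr (fun a _ b _ c _ => tr a b c) (Finset.mem_univ _) (Finset.mem_univ _) hab
  have lt' : ∀ a b, ρ a < ρ b → r a b := fun a b hab =>
    (tot a b (by rintro rfl; exact hab.false)).resolve_right fun h' => (lt b a h').not_gt hab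
  refine ⟨ρ, fun a b e => ?_, fun b c d e bc cd de => ?_⟩
  · by_contra hab
    rcases tot a b hab with h' | h'
    · exact (lt _ _ h').ne e
    · exact (lt _ _ h').ne' e
  have k : ∀ x y, x ≠ p → ρ x < ρ y → χ p x y = 1 := fun x y hx hxy =>
    (lt' x y hxy).resolve_left fun h' => hx h'.1
  have np : ∀ x y, ρ x < ρ y → y ≠ p := fun x y hxy => by
    rcases lt' x y hxy with h' | h'
    · exact h'.2
    · exact (h.ne_of h').2.1.symm
  have c' := np _ _ bc
  have d' := np _ _ cd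
  rcases eq_or_ne b p with rfl | b'
  · rw [k c d c' cd, k c e c' (cd.trans de), k d e d' de]
    exact Or.inl ⟨le_rfl, le_rfl, SignType.le_one _⟩
  · exact h.sig (k b c b' bc) (k b d b' (bc.trans cd)) (k b e b' (bc.trans (cd.trans de)))
      (k c d c' cd) (k c e c' (cd.trans de)) (k d e d' de)

end IsSimpleOrderType

section time

variable {ι : Type} [Fintype ι] {ρ : ι → ℕ}

/-- Lexicographic weight. -/
noncomputable def lexw (ρ : ι → ℕ) (u : ι → ℝ) : ℝ := ∑ m, u m * 2 ^ ρ m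

lemma lexw_lt (hρ : ρ.Injective) {u v : ι → ℝ} (k : ι) (h1 : ∀ m, ρ k < ρ m → u m ≤ v m)
    (h2 : u k + 1 ≤ v k) (h3 : ∀ m, ρ m < ρ k → u m ≤ v m + 1) : lexw ρ u + 1 ≤ lexw ρ v := by
  classical
  have a1 : ∑ m ∈ Finset.univ.filter (fun m => ρ m < ρ k), 2 ^ ρ m < 2 ^ ρ k := by
    rw [← Finset.sum_image (f := fun r => 2 ^ r) (g := ρ) fun a _ b _ e => hρ e]
    exact Nat.geomSum_lt le_rfl (by simp)
  have a2 : ∑ m ∈ Finset.univ.filter (fun m => ρ m < ρ k), (2 : ℝ) ^ ρ m + 1 ≤ 2 ^ ρ k := by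
    exact_mod_cast a1
  have a3 : ∑ m, (u m * 2 ^ ρ m + if m = k then (2 : ℝ) ^ ρ m else 0) ≤
      ∑ m, (v m * 2 ^ ρ m + if ρ m < ρ k then (2 : ℝ) ^ ρ m else 0) := by
    refine Finset.sum_le_sum fun m _ => ?_
    have p : (0 : ℝ) < 2 ^ ρ m := by positivity
    rcases lt_trichotomy (ρ m) (ρ k) with h | h | h
    · rw [if_pos h, if_neg (by rintro rfl; exact h.false)]
      nlinarith [h3 m h]
    · obtain rfl := hρ h
      rw [if_pos rfl, if_neg h.not_lt]
      nlinarith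
    · rw [if_neg h.not_gt, if_neg (by rintro rfl; exact h.false)]
      nlinarith [h1 m h]
  rw [Finset.sum_add_distrib, Finset.sum_add_distrib, ← Finset.sum_filter (fun m => ρ m < ρ k),
    Finset.sum_ite_eq'] at a3
  simp only [Finset.mem_univ, if_true] at a3
  unfold lexw
  linarith

lemma lexw_le {u v : ι → ℝ} (h : ∀ m, u m ≤ v m) : lexw ρ u ≤ lexw ρ v :=
  Finset.sum_le_sum fun m _ => mul_le_mul_of_nonneg_right (h m) (by positivity)

lemma lexw_neg (u : ι → ℝ) : lexw ρ (fun m => -u m) = -lexw ρ u := by simp [lexw]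

/-- The crossing time of `i` and `j`. -/
noncomputable def time (ρ : ι → ℕ) (σ : ι → ι → ι → ℝ) (i j : ι) : ℝ :=
  (2 * lexw ρ (fun _ => 1) + 1) * lexw ρ (fun m => if ρ j < ρ m then -σ i j m else 0) +
    lexw ρ fun m => if ρ i < ρ m ∧ ρ m < ρ j then -σ i m j else 0

lemma time_neg (σ : ι → ι → ι → ℝ) (i j : ι) :
    time ρ (fun i j k => -σ i j k) i j = -time ρ σ i j := by
  simp only [time, neg_add, ← mul_neg, ← lexw_neg, apply_ite (fun x : ℝ => -x), neg_zero]

lemma time_lt (hρ : ρ.Injective) {σ : ι → ι → ι → ℝ} (b1 : ∀ i j k, σ i j k ≤ 1)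
    (b2 : ∀ i j k, -1 ≤ σ i j k) (hσ : ∀ b c d e, ρ b < ρ c → ρ c < ρ d → ρ d < ρ e →
      (σ b c e ≤ σ b c d ∧ σ b d e ≤ σ b c e ∧ σ c d e ≤ σ b d e) ∨
      (σ b c d ≤ σ b c e ∧ σ b c e ≤ σ b d e ∧ σ b d e ≤ σ c d e))
    {i j k : ι} (ij : ρ i < ρ j) (jk : ρ j < ρ k) (e : σ i j k = 1) :
    time ρ σ i j < time ρ σ i k ∧ time ρ σ i k < time ρ σ j k := by
  have r1 : ∀ i j, lexw ρ (fun m => if ρ i < ρ m ∧ ρ m < ρ j then -σ i m j else 0) ≤
      lexw ρ (fun _ => 1) := fun i j => lexw_le fun m => by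
    split_ifs
    · linarith [b2 i m j]
    · exact zero_le_one
  have r2 : ∀ i j, -lexw ρ (fun _ => 1) ≤
      lexw ρ (fun m => if ρ i < ρ m ∧ ρ m < ρ j then -σ i m j else 0) := fun i j => by
    rw [← lexw_neg]
    refine lexw_le fun m => ?_
    split_ifs
    · linarith [b1 i m j]
    · norm_num
  have r3 : 0 ≤ lexw ρ fun _ => 1 := by linarith [r1 i i, r2 i i]
  have u1 : lexw ρ (fun m => if ρ j < ρ m then -σ i j m else 0) + 1 ≤
      lexw ρ fun m => if ρ k < ρ m then -σ i k m else 0 := by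
    refine lexw_lt hρ k (fun m hm => ?_) ?_ fun m hm => ?_
    · rw [if_pos hm, if_pos (jk.trans hm)]
      rcases hσ i j k m ij jk hm with h | h
      · linarith [h.2.1]
      · linarith [h.1, b1 i k m]
    · rw [if_pos jk, if_neg (lt_irrefl _), e]
      norm_num
    · rw [if_neg hm.not_gt]
      split_ifs
      · linarith [b2 i j m]
      · norm_num
  have u2 : lexw ρ (fun m => if ρ k < ρ m then -σ i k m else 0) ≤
      lexw ρ fun m => if ρ k < ρ m then -σ j k m else 0 := lexw_le fun m => by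
    split_ifs with hm
    · rcases hσ i j k m ij jk hm with h | h
      · linarith [h.2.2]
      · linarith [h.1, h.2.1, b1 j k m]
    · rfl
  have u3 : lexw ρ (fun m => if ρ i < ρ m ∧ ρ m < ρ k then -σ i m k else 0) + 1 ≤
      lexw ρ fun m => if ρ j < ρ m ∧ ρ m < ρ k then -σ j m k else 0 := by
    refine lexw_lt hρ j (fun m hm => ?_) ?_ fun m hm => ?_
    · by_cases hk : ρ m < ρ k
      · rw [if_pos ⟨ij.trans hm, hk⟩, if_pos ⟨hm, hk⟩]
        rcases hσ i j m k ij hm hk with h | h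
        · linarith [h.2.2]
        · linarith [h.2.1, b1 j m k]
      · simp [hk]
    · rw [if_pos ⟨ij, jk⟩, if_neg fun h => h.1.false, e]
      norm_num
    · rw [if_neg (c := ρ j < ρ m ∧ _) fun h => hm.not_gt h.1]
      split_ifs
      · linarith [b2 i m k]
      · norm_num
  unfold time
  constructor
  · nlinarith [r1 i j, r2 i k]
  · nlinarith

end time

/-- Labels in `(-1, 1)` and crossing times that encode the order type. -/
theorem IsSimpleOrderType.exists_time {n : ℕ} {χ : Fin n → Fin n → Fin n → SignType}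
    (h : IsSimpleOrderType χ) (hn : 1 < n) : ∃ (c : Fin n → ℝ) (T : Sym2 (Fin n) → ℝ),
    c.Injective ∧ (∀ i, |c i| < 1) ∧ ∀ i j k, c i < c j → c j < c k →
      (χ i j k = 1 ∧ T s(i, j) < T s(i, k) ∧ T s(i, k) < T s(j, k)) ∨
      (χ i j k = -1 ∧ T s(j, k) < T s(i, k) ∧ T s(i, k) < T s(i, j)) := by
  obtain ⟨ρ, hρ, hs⟩ := h.exists_rank hn
  let σ : Fin n → Fin n → Fin n → ℝ := fun i j k => χ i j k
  have m : ∀ {s t : SignType}, s ≤ t → (s : ℝ) ≤ t := by
    intro s t hst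
    cases s <;> cases t <;> first | exact absurd hst (by decide) | simp
  have b1 : ∀ i j k, σ i j k ≤ 1 := fun i j k => by simpa using m (SignType.le_one (χ i j k))
  have b2 : ∀ i j k, -1 ≤ σ i j k := fun i j k => by simpa using m (SignType.neg_one_le (χ i j k))
  let t : Fin n → Fin n → ℝ := fun i j => if ρ i < ρ j then time ρ σ i j else 0
  have lt : ∀ i j, -1 / ((ρ i : ℝ) + 2) < -1 / ((ρ j : ℝ) + 2) → ρ i < ρ j := fun i j hij => by
    rw [div_lt_div_iff₀ (by positivity) (by positivity)] at hij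
    exact_mod_cast (by linarith : (ρ i : ℝ) < ρ j)
  refine ⟨fun i => -1 / ((ρ i : ℝ) + 2), Sym2.lift ⟨fun i j => t i j + t j i, fun _ _ => add_comm _ _⟩,
    fun i j e => hρ ?_, fun i => ?_, fun i j k ij jk => ?_⟩
  · simp only at e
    rw [div_eq_div_iff (by positivity) (by positivity)] at e
    exact_mod_cast (by linarith : (ρ i : ℝ) = ρ j)
  · rw [abs_div, abs_neg, abs_one, abs_of_pos (by positivity), div_lt_one (by positivity)]
    linarith [(ρ i).cast_nonneg (α := ℝ)]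
  replace ij := lt _ _ ij
  replace jk := lt _ _ jk
  have ik := ij.trans jk
  simp only [Sym2.lift_mk, t, if_pos ij, if_pos jk, if_pos ik, if_neg ij.not_gt, if_neg jk.not_gt,
    if_neg ik.not_gt, add_zero]
  have ne : ∀ {i j}, ρ i < ρ j → i ≠ j := by rintro i j hij rfl; exact hij.false
  refine (h.pm (ne ij) (ne ik) (ne jk)).imp (fun e => ⟨e, ?_⟩) fun e => ⟨e, ?_⟩
  · exact time_lt hρ b1 b2 (fun b c d e bc cd de => (hs b c d e bc cd de).imp
      (fun h => ⟨m h.1, m h.2.1, m h.2.2⟩) fun h => ⟨m h.1, m h.2.1, m h.2.2⟩) ij jk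
      (by simp [σ, e])
  · have := time_lt (σ := fun i j k => -σ i j k) hρ (fun i j k => by linarith [b2 i j k])
      (fun i j k => by linarith [b1 i j k]) (fun b c d e bc cd de => (hs b c d e bc cd de).symm.imp
        (fun h => ⟨neg_le_neg (m h.1), neg_le_neg (m h.2.1), neg_le_neg (m h.2.2)⟩)
        fun h => ⟨neg_le_neg (m h.1), neg_le_neg (m h.2.1), neg_le_neg (m h.2.2)⟩) ij jk
      (by simp [σ, e])
    simp only [time_neg, neg_lt_neg_iff] at this
    exact this.symm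

end Pool.Agent.MP_14a896_co
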