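import Mathlib

/-! Drawing a wiring diagram with convex polygonal wires. -/

open Set Filter Topology

namespace Pool.Agent.MP_14a896_co

/-- `f` is the upper envelope of the lines in `U`. -/
def Env (U : Finset (ℝ × ℝ)) (f : ℝ → ℝ) : Prop :=
  (∀ l ∈ U, ∀ y, l.1 * y + l.2 ≤ f y) ∧ ∀ y, ∃ l ∈ U, f y = l.1 * y + l.2

/-- Follow `f` up to `x`, then continue with slope `s`. -/
noncomputable def bend (f : ℝ → ℝ) (x s y : ℝ) : ℝ := if y ≤ x then f y else f x + s * (y - x)

lemma bend_le {f : ℝ → ℝ} {x s y : ℝ} (h : y ≤ x) : bend f x s y = f y := if_pos h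

lemma bend_ge {f : ℝ → ℝ} {x s y : ℝ} (h : x ≤ y) : bend f x s y = f x + s * (y - x) := by
  rcases h.eq_or_lt with rfl | h
  · simp [bend]
  · exact if_neg h.not_ge

lemma Env.bend {U : Finset (ℝ × ℝ)} {f : ℝ → ℝ} (h : Env U f) {x s s' : ℝ}
    (cur : (s, f x - s * x) ∈ U) (lin : ∀ y, x ≤ y → f y = f x + s * (y - x)) (hs : s ≤ s') :
    Env (insert (s', f x - s' * x) U) (bend f x s') := by
  refine ⟨fun l hl y => ?_, fun y => ?_⟩
  · rcases le_total y x with hy | hy
    · rw [bend_le hy]
      rcases Finset.mem_insert.1 hl with rfl | hl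
      · have := h.1 _ cur y
        nlinarith
      · exact h.1 l hl y
    · rw [bend_ge hy]
      rcases Finset.mem_insert.1 hl with rfl | hl
      · exact le_of_eq (by ring)
      · have := h.1 l hl y
        rw [lin y hy] at this
        nlinarith
  · rcases le_total y x with hy | hy
    · obtain ⟨l, hl, e⟩ := h.2 y
      exact ⟨l, Finset.mem_insert_of_mem hl, by rw [bend_le hy, e]⟩
    · exact ⟨_, Finset.mem_insert_self _ _, by rw [bend_ge hy]; ring⟩

variable {ι : Type} [Fintype ι] [DecidableEq ι]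

/-- The drawing up to time `x`, when the pairs in `S` have crossed. -/
structure St (c : ι → ℝ) (S : Finset (Sym2 ι)) (t : Sym2 ι → ℝ) (x : ℝ) (f : ι → ℝ → ℝ)
    (U : ι → Finset (ℝ × ℝ)) (s : ι → ℝ) : Prop where
  env : ∀ i, Env (U i) (f i)
  cur : ∀ i, (s i, f i x - s i * x) ∈ U i
  lin : ∀ i y, x ≤ y → f i y = f i x + s i * (y - x)
  rng : ∀ i, ∀ l ∈ U i, -2 + c i ≤ l.1 ∧ l.1 < 1
  left : ∀ i, ∃ b, (-2 + c i, b) ∈ U i
  done : ∀ a b, c a < c b → s(a, b) ∈ S → ∀ y ≤ x,
    SignType.sign (f b y - f a y) = SignType.sign (y - t s(a, b))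
  todo : ∀ a b, c a < c b → s(a, b) ∉ S → ∀ y ≤ x, f b y < f a y
  tlt : ∀ p ∈ S, t p < x
  ord : ∀ a b, f a x < f b x → s a < s b
  loc : ∀ a b, c a < c b → s(a, b) ∈ S → ∀ u v, (∀ y ≤ x, u * y + v ≤ f a y) →
    (∀ y ≤ x, u * y + v ≤ f b y) → u * t s(a, b) + v < f a (t s(a, b))
  card : ∀ i, (U i).card ≤ 2 + (Finset.univ.filter fun j => c j < c i ∧ s(j, i) ∈ S).card

variable {c : ι → ℝ} {S : Finset (Sym2 ι)} {t : Sym2 ι → ℝ} {x : ℝ} {f : ι → ℝ → ℝ}
  {U : ι → Finset (ℝ × ℝ)} {s : ι → ℝ}

lemma St.done' (h : St c S t x f U s) {a b : ι} (hab : c a < c b) (hS : s(a, b) ∈ S) :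
    f a x < f b x := by
  have := h.done a b hab hS x le_rfl
  rwa [sign_pos (sub_pos.2 (h.tlt _ hS)), sign_eq_one_iff, sub_pos] at this

lemma St.lt_iff (h : St c S t x f U s) {a b : ι} (hab : c a < c b) :
    (s(a, b) ∈ S ∧ f a x < f b x) ∨ (s(a, b) ∉ S ∧ f b x < f a x) :=
  (em _).imp (fun hS => ⟨hS, h.done' hab hS⟩) fun hS => ⟨hS, h.todo a b hab hS x le_rfl⟩

lemma St.ne (h : St c S t x f U s) (hc : c.Injective) {a b : ι} (hab : a ≠ b) :
    f a x < f b x ∨ f b x < f a x := by
  rcases (hc.ne hab).lt_or_gt with h' | h'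
  · exact (h.lt_iff h').imp And.right And.right
  · exact (h.lt_iff h').symm.imp And.right And.right

lemma St.step (h : St c S t x f U s) (hc : c.Injective) {i j : ι} (hij : c i < c j)
    (hS : s(i, j) ∉ S) (adj : ∀ k, f j x < f k x → ¬ f k x < f i x) :
    ∀ᶠ X in atTop, ∃ f U s, St c (insert s(i, j) S) (Function.update t s(i, j) X) (X + 1) f U s := by
  have hg : f j x < f i x := h.todo i j hij hS x le_rfl
  have hne : i ≠ j := fun e => by rw [e] at hij; exact hij.false
  have lim : Tendsto (fun X => s i + (f i x - f j x) / (X - x)) atTop (𝓝 (s i)) := by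
    simpa [sub_eq_add_neg] using (tendsto_const_nhds (x := s i)).add
      ((tendsto_const_nhds (x := f i x - f j x)).div_atTop
        (tendsto_atTop_add_const_right atTop (-x) tendsto_id))
  have E1 := lim.eventually (gt_mem_nhds (h.rng i _ (h.cur i)).2)
  have E2 : ∀ᶠ X in atTop, ∀ k, f i x < f k x → s i + (f i x - f j x) / (X - x) < s k :=
    eventually_all.2 fun k => by
      by_cases hk : f i x < f k x
      · exact (lim.eventually (gt_mem_nhds (h.ord i k hk))).mono fun X hX _ => hX
      · exact Eventually.of_forall fun X hX => absurd hX hk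
  filter_upwards [E1, E2, eventually_gt_atTop x] with X e1 e2 hX
  have hD : 0 < X - x := sub_pos.2 hX
  have hσ : s i < s i + (f i x - f j x) / (X - x) := lt_add_of_pos_right _ (div_pos (sub_pos.2 hg) hD)
  have hσ' : (s i + (f i x - f j x) / (X - x) - s i) * (X - x) = f i x - f j x := by
    field_simp; ring
  generalize s i + (f i x - f j x) / (X - x) = σ at e1 e2 hσ hσ'
  obtain ⟨s', sj, sk⟩ : ∃ s' : ι → ℝ, s' j = σ ∧ ∀ k, k ≠ j → s' k = s k :=
    ⟨Function.update s j σ, by simp, fun k hk => by simp [hk]⟩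
  have hji := h.ord j i hg
  have si := sk i hne
  have sle : ∀ k, s k ≤ s' k := fun k => by
    rcases eq_or_ne k j with rfl | hk
    · linarith
    · exact (sk k hk).ge
  have hx : x ≤ X + 1 := by linarith
  have key : ∀ a b, f a x < f b x → ¬ (a = j ∧ b = i) → s' a < s' b := by
    intro a b hab hn
    rcases eq_or_ne a j with rfl | ha
    · have hb : b ≠ i := fun e => hn ⟨rfl, e⟩
      exact sj.trans_lt ((e2 b ((h.ne hc hb).resolve_left (adj b hab))).trans_le (sle b))
    · exact (sk a ha).trans_lt ((h.ord a b hab).trans_le (sle b))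
  have key' : ∀ a b, f a x < f b x → ¬ (a = j ∧ b = i) → ∀ y, x ≤ y →
      bend (f a) x (s' a) y < bend (f b) x (s' b) y := fun a b hab hn y hy => by
    rw [bend_ge hy, bend_ge hy]
    nlinarith [key a b hab hn]
  have new : ∀ y, x ≤ y → bend (f j) x (s' j) y - bend (f i) x (s' i) y = (σ - s i) * (y - X) :=
    fun y hy => by
      rw [bend_ge hy, bend_ge hy, sj, si]
      linarith
  have split : ∀ a b, c a < c b → s(a, b) ∈ insert s(i, j) S → (a = i ∧ b = j) ∨
      (s(a, b) ∈ S ∧ Function.update t s(i, j) X s(a, b) = t s(a, b)) := by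
    intro a b hab hm
    rcases Finset.mem_insert.1 hm with e | hm
    · refine Or.inl ((Sym2.eq_iff.1 e).resolve_right ?_)
      rintro ⟨rfl, rfl⟩
      exact hab.not_gt hij
    · exact Or.inr ⟨hm, Function.update_of_ne (by rintro e; exact hS (e ▸ hm)) _ _⟩
  refine ⟨fun k => bend (f k) x (s' k), fun k => insert (s' k, f k x - s' k * x) (U k), s',
    fun k => (h.env k).bend (h.cur k) (h.lin k) (sle k), fun k => ?_, fun k y hy => ?_,
    fun k l hl => ?_, fun k => (h.left k).imp fun b => Finset.mem_insert_of_mem,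
    fun a b hab hm y hy => ?_, fun a b hab hm y hy => ?_, fun p hp => ?_, fun a b hab => ?_,
    fun a b hab hm u v h1 h2 => ?_, fun k => ?_⟩
  · refine Finset.mem_insert.2 (Or.inl ?_)
    rw [bend_ge hx]
    congr 1
    ring
  · rw [bend_ge hx, bend_ge (hx.trans hy)]
    ring
  · rcases Finset.mem_insert.1 hl with rfl | hl
    · refine ⟨(h.rng k _ (h.cur k)).1.trans (sle k), ?_⟩
      rcases eq_or_ne k j with rfl | hk
      · exact sj.trans_lt e1
      · exact (sk k hk).trans_lt (h.rng k _ (h.cur k)).2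
    · exact h.rng k l hl
  · rcases split a b hab hm with ⟨rfl, rfl⟩ | ⟨hm, e⟩
    · rw [Function.update_self]
      rcases le_total y x with hy | hy
      · rw [bend_le hy, bend_le hy, sign_neg (sub_neg.2 (h.todo a b hab hS y hy)),
          sign_neg (by linarith)]
      · rw [new y hy, sign_mul, sign_pos (sub_pos.2 hσ), one_mul]
    · rw [e]
      rcases le_total y x with hy | hy
      · rw [bend_le hy, bend_le hy, h.done a b hab hm y hy]
      · rw [sign_pos (sub_pos.2 (key' a b (h.done' hab hm) ?_ y hy)),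
          sign_pos (by linarith [h.tlt _ hm])]
        rintro ⟨rfl, rfl⟩
        exact hab.not_gt hij
  · rw [Finset.mem_insert, not_or] at hm
    rcases le_total y x with hy | hy
    · rw [bend_le hy, bend_le hy]
      exact h.todo a b hab hm.2 y hy
    · refine key' b a (h.todo a b hab hm.2 x le_rfl) ?_ y hy
      rintro ⟨rfl, rfl⟩
      exact hm.1 rfl
  · rcases eq_or_ne p s(i, j) with rfl | e
    · simp
    · rw [Function.update_of_ne e]
      exact (h.tlt p ((Finset.mem_insert.1 hp).resolve_left e)).trans_le hx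
  · rcases h.ne hc (show a ≠ b by rintro rfl; exact hab.false) with h' | h'
    · refine key a b h' ?_
      rintro ⟨rfl, rfl⟩
      have := new _ hx
      nlinarith
    · by_cases e : b = j ∧ a = i
      · rw [e.1, e.2, si, sj]
        exact hσ
      · exact absurd hab (key' b a h' e _ hx).not_gt
  · rcases split a b hab hm with ⟨rfl, rfl⟩ | ⟨hm, e⟩
    · have k1 := h1 _ le_rfl
      have k2 := h2 x hx
      rw [bend_ge hx] at k1
      rw [bend_le le_rfl] at k2
      rw [Function.update_self, bend_ge hX.le]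
      nlinarith
    · rw [e, bend_le (h.tlt _ hm).le]
      exact h.loc a b hab hm u v (fun y hy => (h1 y (hy.trans hx)).trans_eq (bend_le hy))
        fun y hy => (h2 y (hy.trans hx)).trans_eq (bend_le hy)
  · have mono : (Finset.univ.filter fun a => c a < c k ∧ s(a, k) ∈ S) ⊆
        Finset.univ.filter fun a => c a < c k ∧ s(a, k) ∈ insert s(i, j) S := fun a => by
      simp only [Finset.mem_filter, Finset.mem_insert]
      tauto
    rcases eq_or_ne k j with rfl | hk
    · have := Finset.card_lt_card ((Finset.ssubset_iff_of_subset mono).2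
        ⟨i, by simp [hij], by simp [hS]⟩)
      have := h.card k
      have := Finset.card_insert_le (s' k, f k x - s' k * x) (U k)
      omega
    · rw [sk k hk, Finset.insert_eq_of_mem (h.cur k)]
      exact (h.card k).trans (Nat.add_le_add_left (Finset.card_le_card mono) _)

/-- The crossing times of every triple are monotone. -/
def Mono (c : ι → ℝ) (T : Sym2 ι → ℝ) : Prop :=
  ∀ i j k, c i < c j → c j < c k → (T s(i, j) < T s(i, k) ∧ T s(i, k) < T s(j, k)) ∨
    (T s(j, k) < T s(i, k) ∧ T s(i, k) < T s(i, j))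

omit [Fintype ι] [DecidableEq ι] in
lemma Mono.neg {T : Sym2 ι → ℝ} (h : Mono c T) : Mono (fun i => -c i) T := fun i j k h1 h2 => by
  have := h k j i (neg_lt_neg_iff.1 h2) (neg_lt_neg_iff.1 h1)
  rw [Sym2.eq_swap (a := k) (b := j), Sym2.eq_swap (a := k), Sym2.eq_swap (a := j) (b := i)] at this
  exact this.symm

lemma St.step' (h : St c S t x f U s) (hc : c.Injective) {T : Sym2 ι → ℝ} (hT : Mono c T)
    {p : Sym2 ι} (hp : ¬ p.IsDiag) (hS : p ∉ S) (top : ∀ q ∈ S, T q ≤ T p)
    (low : ∀ a b, c a < c b → T s(a, b) < T p → s(a, b) ∈ S) :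
    ∀ᶠ X in atTop, ∃ f U s, St c (insert p S) (Function.update t p X) (X + 1) f U s := by
  obtain ⟨i, j, rfl, hij⟩ : ∃ i j, p = s(i, j) ∧ c i < c j := by
    induction p using Sym2.ind with | _ i j => ?_
    rcases (hc.ne (mt Sym2.mk_isDiag_iff.2 hp)).lt_or_gt with h' | h'
    · exact ⟨i, j, rfl, h'⟩
    · exact ⟨j, i, Sym2.eq_swap, h'⟩
  refine h.step hc hij hS fun k h1 h2 => ?_
  have yes : ∀ a b, c a < c b → f a x < f b x → T s(a, b) ≤ T s(i, j) := fun a b hab h' =>
    top _ ((h.lt_iff hab).resolve_right fun h'' => h''.2.not_gt h').1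
  have no : ∀ a b, c a < c b → f b x < f a x → T s(i, j) ≤ T s(a, b) := fun a b hab h' =>
    not_lt.1 fun hl => (h.done' hab (low a b hab hl)).not_gt h'
  rcases (hc.ne (show k ≠ i by rintro rfl; exact h2.false)).lt_or_gt with hi | hi
  · have := yes k i hi h2
    have := no k j (hi.trans hij) h1
    rcases hT k i j hi hij with h' | h' <;> linarith [h'.1, h'.2]
  rcases (hc.ne (show k ≠ j by rintro rfl; exact h1.false)).lt_or_gt with hj | hj
  · have := no i k hi h2
    have := no k j hj h1
    rcases hT i k j hi hj with h' | h' <;> linarith [h'.1, h'.2]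
  · have := no i k hi h2
    have := yes j k hj h1
    rcases hT i j k hij hj with h' | h' <;> linarith [h'.1, h'.2]

lemma st_empty (hc : ∀ i, |c i| < 1) (t : Sym2 ι → ℝ) : ∃ f U s, St c ∅ t 0 f U s := by
  have env : ∀ i, Env {(-2 + c i, -c i)} fun y => (-2 + c i) * y + -c i := fun i =>
    ⟨by simp, fun y => ⟨_, Finset.mem_singleton_self _, rfl⟩⟩
  refine ⟨_, _, fun i => -c i, fun i => (env i).bend (x := 0) (s := -2 + c i) (s' := -c i)
    (by simp) (by simp [add_comm]) (by linarith [abs_lt.1 (hc i)]), fun i => ?_, fun i y hy => ?_,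
    fun i l hl => ?_, fun i => ⟨-c i, by simp⟩, by simp, fun a b hab _ y hy => ?_, by simp,
    fun a b => ?_, by simp, fun i => ?_⟩
  · simp [bend_le]
  · rw [bend_ge hy, bend_le le_rfl]
  · have := abs_lt.1 (hc i)
    simp only [Finset.mem_insert, Finset.mem_singleton] at hl
    rcases hl with rfl | rfl <;> constructor <;> linarith
  · rw [bend_le hy, bend_le hy]
    nlinarith
  · simp [bend_le]
  · exact (Finset.card_le_two).trans (Nat.le_add_right _ _)

/-- The finished drawing. -/
structure Wire (c : ι → ℝ) (t : Sym2 ι → ℝ) (f : ι → ℝ → ℝ) (U : ι → Finset (ℝ × ℝ)) : Prop where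
  env : ∀ i, Env (U i) (f i)
  rng : ∀ i, ∀ l ∈ U i, -2 + c i ≤ l.1 ∧ l.1 ≤ 2 + c i
  left : ∀ i, ∃ b, (-2 + c i, b) ∈ U i
  right : ∀ i, ∃ b, (2 + c i, b) ∈ U i
  sgn : ∀ a b, c a < c b → ∀ y, SignType.sign (f b y - f a y) = SignType.sign (y - t s(a, b))
  loc : ∀ a b, c a < c b → ∀ u v, (∀ y, u * y + v ≤ f a y) → (∀ y, u * y + v ≤ f b y) →
    u * t s(a, b) + v < f a (t s(a, b))
  card : ∀ i, (U i).card ≤ 3 + (Finset.univ.filter fun j => c j < c i).card

lemma St.wire (h : St c S t x f U s) (hc : ∀ i, |c i| < 1) (hS : ∀ a b, c a < c b → s(a, b) ∈ S) :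
    ∃ f U, Wire c t f U := by
  have r : ∀ i, ∀ l ∈ U i, l.1 ≤ 2 + c i := fun i l hl => by
    linarith [(h.rng i l hl).2, (abs_lt.1 (hc i)).1]
  refine ⟨_, _, fun i => (h.env i).bend (h.cur i) (h.lin i) (r i _ (h.cur i)), fun i l hl => ?_,
    fun i => (h.left i).imp fun b => Finset.mem_insert_of_mem,
    fun i => ⟨_, Finset.mem_insert_self _ _⟩, fun a b hab y => ?_, fun a b hab u v h1 h2 => ?_,
    fun i => ?_⟩
  · rcases Finset.mem_insert.1 hl with rfl | hl
    · exact ⟨by linarith, le_rfl⟩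
    · exact ⟨(h.rng i l hl).1, r i l hl⟩
  · rcases le_total y x with hy | hy
    · rw [bend_le hy, bend_le hy, h.done a b hab (hS a b hab) y hy]
    · rw [bend_ge hy, bend_ge hy, sign_pos (by nlinarith [h.done' hab (hS a b hab)]),
        sign_pos (by linarith [h.tlt _ (hS a b hab)])]
  · rw [bend_le (h.tlt _ (hS a b hab)).le]
    exact h.loc a b hab (hS a b hab) u v (fun y hy => (h1 y).trans_eq (bend_le hy))
      fun y hy => (h2 y).trans_eq (bend_le hy)
  · have := h.card i
    have := Finset.card_insert_le (2 + c i, f i x - (2 + c i) * x) (U i)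
    have : (Finset.univ.filter fun j => c j < c i ∧ s(j, i) ∈ S).card ≤
        (Finset.univ.filter fun j => c j < c i).card :=
      Finset.card_le_card fun a => by simp only [Finset.mem_filter]; tauto
    omega

theorem exists_wire (hc : c.Injective) (hc' : ∀ i, |c i| < 1) {T : Sym2 ι → ℝ} (hT : Mono c T) :
    ∃ t : Sym2 ι → ℝ, (∀ p q, ¬ p.IsDiag → ¬ q.IsDiag → T p < T q → t p < t q) ∧
      (∃ f U, Wire c t f U) ∧ ∃ f U, Wire (fun i => -c i) t f U := by
  have nd : ∀ {c : ι → ℝ} {a b}, c a < c b → ¬ s(a, b).IsDiag := by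
    intro c a b hab e
    rw [Sym2.mk_isDiag_iff.1 e] at hab
    exact hab.false
  have key : ∀ S : Finset (Sym2 ι), (∀ p ∈ S, ¬ p.IsDiag) →
      (∀ p ∈ S, ∀ q, ¬ q.IsDiag → T q < T p → q ∈ S) → ∃ t x, (∃ f U s, St c S t x f U s) ∧
        (∃ f U s, St (fun i => -c i) S t x f U s) ∧ ∀ p ∈ S, ∀ q ∈ S, T p < T q → t p < t q := by
    intro S
    induction S using Finset.induction_on_max_value T with
    | empty =>
      exact fun _ _ => ⟨0, 0, st_empty hc' _, st_empty (by simpa using hc') _, by simp⟩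
    | insert p S hp top ih =>
      intro h1 h2
      have low : ∀ q, ¬ q.IsDiag → T q < T p → q ∈ S := fun q hq hl =>
        (Finset.mem_insert.1 (h2 p (Finset.mem_insert_self _ _) q hq hl)).resolve_left
          (by rintro rfl; exact hl.false)
      obtain ⟨t, x, ⟨f, U, s, k1⟩, ⟨f', U', s', k2⟩, k3⟩ :=
        ih (fun q hq => h1 q (Finset.mem_insert_of_mem hq))
          fun q hq r hr hl => low r hr (hl.trans_le (top q hq))
      have h3 := h1 p (Finset.mem_insert_self _ _)
      obtain ⟨X, ⟨e1, e2⟩, e3⟩ := (((k1.step' hc hT h3 hp top fun a b hab => low _ (nd hab)).and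
        (k2.step' (neg_injective.comp hc) hT.neg h3 hp top fun a b hab =>
          low _ (nd (c := fun i => -c i) hab))).and (eventually_gt_atTop x)).exists
      refine ⟨_, _, e1, e2, fun q hq r hr hl => ?_⟩
      replace hq : q ∈ S := (Finset.mem_insert.1 hq).resolve_left (by
        rintro rfl
        rcases Finset.mem_insert.1 hr with rfl | hr
        · exact hl.false
        · exact hl.not_ge (top r hr))
      rw [Function.update_of_ne (by rintro rfl; exact hp hq)]
      rcases eq_or_ne r p with rfl | e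
      · rw [Function.update_self]
        exact (k1.tlt q hq).trans e3
      · rw [Function.update_of_ne e]
        exact k3 q hq r ((Finset.mem_insert.1 hr).resolve_left e) hl
  obtain ⟨t, x, ⟨f, U, s, k1⟩, ⟨f', U', s', k2⟩, k3⟩ :=
    key (Finset.univ.filter fun p => ¬ p.IsDiag) (by simp) (by simp +contextual)
  exact ⟨t, fun p q hp hq => k3 p (by simpa using hp) q (by simpa using hq),
    k1.wire hc' fun a b hab => by simpa using nd hab,
    k2.wire (by simpa using hc') fun a b hab => by simpa using nd (c := fun i => -c i) hab⟩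

end Pool.Agent.MP_14a896_co
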