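import Pool.Agent.MP_14a896_co.Homeo
import Pool.Agent.MP_14a896_co.Sig
import Pool.Agent.MP_14a896_co.Wire

/-! Every simple order type on `n` elements is realized by `(n + 5)`-gons. -/

open Set Real

namespace Pool.Agent.MP_14a896_co

/-- The polygon whose lower boundary is dual to `U` and whose upper boundary is dual to `W`. -/
noncomputable def body (U W : Finset (ℝ × ℝ)) (M : ℝ) : Finset (ℝ × ℝ) :=
  U.image (fun l => (l.1, -l.2 - M)) ∪ W.image fun l => (-l.1, l.2 + M)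

section body

variable {U W : Finset (ℝ × ℝ)} {M : ℝ} {f : ℝ → ℝ} {θ : ℝ}

lemma hull_le {V : Finset (ℝ × ℝ)} {α β γ : ℝ} (h : ∀ p ∈ V, α * p.1 + β * p.2 ≤ γ) :
    ∀ p ∈ convexHull ℝ (V : Set (ℝ × ℝ)), α * p.1 + β * p.2 ≤ γ := by
  refine convexHull_min h (convex_halfSpace_le (f := fun p : ℝ × ℝ => α * p.1 + β * p.2)
    ⟨fun p q => ?_, fun c p => ?_⟩ γ)
  · simp; ring
  · simp; ring

lemma body_low (hU : Env U f) (dom : ∀ l ∈ W, ∀ y, -l.1 * y - l.2 - M ≤ f y + M) (y : ℝ) :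
    ∀ p ∈ convexHull ℝ (body U W M : Set (ℝ × ℝ)), y * p.1 + -1 * p.2 ≤ f y + M := by
  refine hull_le fun p hp => ?_
  simp only [body, Finset.mem_union, Finset.mem_image] at hp
  rcases hp with ⟨l, hl, rfl⟩ | ⟨l, hl, rfl⟩
  · linarith [hU.1 l hl y]
  · linarith [dom l hl y]

lemma body_up (hW : Env W f) (dom : ∀ l ∈ U, ∀ y, -l.1 * y - l.2 - M ≤ f y + M) (y : ℝ) :
    ∀ p ∈ convexHull ℝ (body U W M : Set (ℝ × ℝ)), -y * p.1 + 1 * p.2 ≤ f y + M := by
  refine hull_le fun p hp => ?_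
  simp only [body, Finset.mem_union, Finset.mem_image] at hp
  rcases hp with ⟨l, hl, rfl⟩ | ⟨l, hl, rfl⟩
  · linarith [dom l hl y]
  · linarith [hW.1 l hl y]

lemma ip_eq (h : sin θ ≠ 0) (p : ℝ × ℝ) :
    ip θ p = -sin θ * (-cos θ / sin θ * p.1 + -1 * p.2) := by
  unfold ip
  field_simp
  ring

lemma supp_low (hU : Env U f) (dom : ∀ l ∈ W, ∀ y, -l.1 * y - l.2 - M ≤ f y + M)
    (hθ : sin θ < 0) : supp (convexHull ℝ (body U W M : Set (ℝ × ℝ))) θ =
      -sin θ * (f (-cos θ / sin θ) + M) := by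
  refine Supports.eq ⟨fun p hp => ?_, ?_⟩
  · rw [ip_eq hθ.ne]
    exact mul_le_mul_of_nonneg_left (body_low hU dom _ p hp) (by linarith)
  · obtain ⟨l, hl, e⟩ := hU.2 (-cos θ / sin θ)
    refine ⟨(l.1, -l.2 - M), subset_convexHull _ _
      (Finset.mem_union_left _ (Finset.mem_image_of_mem _ hl)), ?_⟩
    rw [ip_eq hθ.ne, e]
    ring

lemma supp_up (hW : Env W f) (dom : ∀ l ∈ U, ∀ y, -l.1 * y - l.2 - M ≤ f y + M)
    (hθ : 0 < sin θ) : supp (convexHull ℝ (body U W M : Set (ℝ × ℝ))) θ =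
      sin θ * (f (-cos θ / sin θ) + M) := by
  refine Supports.eq ⟨fun p hp => ?_, ?_⟩
  · rw [ip_eq hθ.ne']
    nlinarith [body_up hW dom (-cos θ / sin θ) p hp]
  · obtain ⟨l, hl, e⟩ := hW.2 (-cos θ / sin θ)
    refine ⟨(-l.1, l.2 + M), subset_convexHull _ _
      (Finset.mem_union_right _ (Finset.mem_image_of_mem _ hl)), ?_⟩
    rw [ip_eq hθ.ne', e]
    ring

lemma supp_flat {c : ℝ} (hU : ∀ l ∈ U, -2 + c ≤ l.1 ∧ l.1 ≤ 2 + c)
    (hW : ∀ l ∈ W, -2 + -c ≤ l.1 ∧ l.1 ≤ 2 + -c) (h1 : ∃ b, (-2 + c, b) ∈ U)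
    (h2 : ∃ b, (2 + c, b) ∈ U) (hθ : sin θ = 0) :
    supp (convexHull ℝ (body U W M : Set (ℝ × ℝ))) θ = 2 + cos θ * c := by
  have k : ∀ p ∈ body U W M, -2 + c ≤ p.1 ∧ p.1 ≤ 2 + c := fun p hp => by
    simp only [body, Finset.mem_union, Finset.mem_image] at hp
    rcases hp with ⟨l, hl, rfl⟩ | ⟨l, hl, rfl⟩
    · exact hU l hl
    · constructor <;> linarith [hW l hl]
  obtain ⟨b₁, h1⟩ := h1
  obtain ⟨b₂, h2⟩ := h2
  rcases sin_eq_zero_iff_cos_eq.1 hθ with e | e
  · refine (supports_hull (fun p hp => ?_)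
      ⟨_, Finset.mem_union_left _ (Finset.mem_image_of_mem _ h2), ?_⟩).eq
    · simpa [ip, hθ, e] using (k p hp).2
    · simp [ip, hθ, e]
  · refine (supports_hull (fun p hp => ?_)
      ⟨_, Finset.mem_union_left _ (Finset.mem_image_of_mem _ h1), ?_⟩).eq
    · simp only [ip, hθ, e]
      linarith [(k p hp).1]
    · simp only [ip, hθ, e]
      ring

end body

lemma finite_zeros (t : ℝ) : {θ | θ ∈ Ico 0 (2 * π) ∧ cos θ + t * sin θ = 0}.Finite := by
  obtain ⟨α, β, h⟩ := exists_cr_ip (v := (1, t)) (by simp)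
  obtain ⟨z, h1, h2⟩ := exists_shift (-(2 * π)) α
  have k := h.shift (per_ip _) z
  generalize α + z * (2 * π) = α' at *
  generalize β + z * (2 * π) = β' at *
  refine (Set.toFinite {α', β', α' + 2 * π, β' + 2 * π}).subset ?_
  rintro θ ⟨⟨h3, h4⟩, h5⟩
  have h6 : ip θ (1, t) = 0 := by rw [← h5, ip]; ring
  simp only [mem_insert_iff, mem_singleton_iff]
  rcases lt_or_ge θ (α' + 2 * π) with h7 | h7
  · have := k.zero (by linarith) h7 h6
    tauto
  · have := k.zero (θ := θ - 2 * π) (by linarith) (by linarith) (((per_ip _).sub' θ).trans h6)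
    simp only [sub_eq_iff_eq_add] at this
    tauto

lemma sort3 {ι : Type} {c : ι → ℝ} (hc : c.Injective) {P : ι → ι → ι → Prop}
    (s1 : ∀ i j k, P i j k → P j i k) (s2 : ∀ i j k, P i j k → P i k j)
    (h : ∀ i j k, c i < c j → c j < c k → P i j k) {i j k : ι} (ij : i ≠ j) (ik : i ≠ k)
    (jk : j ≠ k) : P i j k := by
  rcases (hc.ne ij).lt_or_gt with h1 | h1 <;> rcases (hc.ne ik).lt_or_gt with h2 | h2 <;>
    rcases (hc.ne jk).lt_or_gt with h3 | h3
  · exact h _ _ _ h1 h3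
  · exact s2 _ _ _ (h _ _ _ h2 h3)
  · exact absurd (h1.trans h3) h2.not_gt
  · exact s2 _ _ _ (s1 _ _ _ (h _ _ _ h2 h1))
  · exact s1 _ _ _ (h _ _ _ h1 h2)
  · exact absurd (h2.trans h3) h1.not_gt
  · exact s1 _ _ _ (s2 _ _ _ (h _ _ _ h3 h2))
  · exact s1 _ _ _ (s2 _ _ _ (s1 _ _ _ (h _ _ _ h3 h1)))

lemma SameType.swap' {A B C A' B' C' : Set (ℝ × ℝ)} (h : SameType ![A, B, C] ![A', B', C']) :
    SameType ![B, A, C] ![B', A', C'] := by
  obtain ⟨Φ, h1, h2, h3⟩ := h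
  refine ⟨Φ, h1, h2, fun i => ?_⟩
  fin_cases i
  · exact h3 1
  · exact h3 0
  · exact h3 2

lemma sameType_of_three {A B C : Set (ℝ × ℝ)} {p q r : ℝ × ℝ} (hA : Continuous (supp A))
    (hB : Continuous (supp B)) (hC : Continuous (supp C))
    (h1 : ∀ θ, SignType.sign (supp B θ - supp A θ) = SignType.sign (ip θ q - ip θ p))
    (h2 : ∀ θ, SignType.sign (supp C θ - supp A θ) = SignType.sign (ip θ r - ip θ p))
    (h3 : ∀ θ, SignType.sign (supp C θ - supp B θ) = SignType.sign (ip θ r - ip θ q)) :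
    SameType ![A, B, C] ![{p}, {q}, {r}] := by
  have k : ∀ {a b c d : ℝ}, SignType.sign (a - b) = SignType.sign (c - d) →
      SignType.sign (b - a) = SignType.sign (d - c) := fun h => by
    rw [← neg_sub, Left.sign_neg, h, ← Left.sign_neg, neg_sub]
  refine sameType_of_sign (fun i => by fin_cases i <;> assumption)
    (fun i => by fin_cases i <;> exact continuous_supp_singleton _) fun θ i j => ?_
  have := k (h1 θ)
  have := k (h2 θ)
  have := k (h3 θ)
  fin_cases i <;> fin_cases j <;> simp [supp_singleton, *]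

lemma exists_model {x y z : ℝ} (h : (x < y ∧ y < z) ∨ (z < y ∧ y < x)) : ∃ p q r : ℝ × ℝ,
    SignType.sign (det3 p q r) = SignType.sign (z - x) ∧
    (∀ θ, SignType.sign (cos θ + x * sin θ) = SignType.sign (ip θ q - ip θ p)) ∧
    (∀ θ, SignType.sign (cos θ + y * sin θ) = SignType.sign (ip θ r - ip θ p)) ∧
    ∀ θ, SignType.sign (cos θ + z * sin θ) = SignType.sign (ip θ r - ip θ q) := by
  obtain ⟨a, b, ha, hb, e⟩ : ∃ a b : ℝ, 0 < a ∧ 0 < b ∧ a * x + b * z = (a + b) * y := by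
    rcases h with h | h
    · exact ⟨z - y, y - x, by linarith, by linarith, by ring⟩
    · exact ⟨y - z, x - y, by linarith, by linarith, by ring⟩
  have k : ∀ {a u v : ℝ}, 0 < a → v = a * u → SignType.sign u = SignType.sign v := fun h e => by
    rw [e, sign_mul, _root_.sign_pos h, one_mul]
  refine ⟨(0, 0), (a, a * x), (a + b, a * x + b * z), (k (mul_pos ha hb) ?_).symm,
    fun θ => k ha ?_, fun θ => k (add_pos ha hb) ?_, fun θ => k hb ?_⟩
  · simp only [det3]; ring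
  · simp only [ip]; ring
  · simp only [ip, e]; ring
  · simp only [ip]; ring

lemma Wire.dom {ι : Type} [Fintype ι] [DecidableEq ι] {c : ι → ℝ} {t : Sym2 ι → ℝ}
    {f : ι → ℝ → ℝ} {U : ι → Finset (ℝ × ℝ)} (h : Wire c t f U) {i : ι} {M : ℝ}
    (hM : ∀ l ∈ U i, -M ≤ l.2) {l : ℝ × ℝ} (h1 : -2 + -c i ≤ l.1 ∧ l.1 ≤ 2 + -c i)
    (h2 : -M ≤ l.2) (y : ℝ) : -l.1 * y - l.2 - M ≤ f i y + M := by
  obtain ⟨b₁, k1⟩ := h.left i
  obtain ⟨b₂, k2⟩ := h.right i
  have := (h.env i).1 _ k1 y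
  have := (h.env i).1 _ k2 y
  have := hM _ k1
  have := hM _ k2
  rcases le_total y 0 with hy | hy <;> nlinarith [h1.1, h1.2]

theorem suffices_upper {n : ℕ} (hn : 1 < n) : Suffices n (n + 5) := by
  intro χ hχ
  obtain ⟨c, T, hc, hc', hT⟩ := hχ.exists_time hn
  obtain ⟨t, ht, ⟨f, U, hf⟩, g, W, hg⟩ := exists_wire (T := T) hc hc'
    fun i j k ij jk => (hT i j k ij jk).imp And.right And.right
  obtain ⟨m, hm⟩ :=
    ((Finset.univ.biUnion fun i => U i ∪ W i).finite_toSet.image Prod.snd).bddBelow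
  have m1 : ∀ i, ∀ l ∈ U i, - -m ≤ l.2 := fun i l hl =>
    (neg_neg m).trans_le (hm ⟨l, by simpa using ⟨i, Or.inl hl⟩, rfl⟩)
  have m2 : ∀ i, ∀ l ∈ W i, - -m ≤ l.2 := fun i l hl =>
    (neg_neg m).trans_le (hm ⟨l, by simpa using ⟨i, Or.inr hl⟩, rfl⟩)
  generalize -m = M at m1 m2
  have d1 : ∀ i, ∀ l ∈ W i, ∀ y, -l.1 * y - l.2 - M ≤ f i y + M := fun i l hl =>
    hf.dom (m1 i) (hg.rng i l hl) (m2 i l hl)
  have d2 : ∀ i, ∀ l ∈ U i, ∀ y, -l.1 * y - l.2 - M ≤ g i y + M := fun i l hl =>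
    hg.dom (m2 i) (by simpa using hf.rng i l hl) (m1 i l hl)
  obtain ⟨A, hA⟩ : ∃ A : Fin n → Set (ℝ × ℝ),
      ∀ i, A i = convexHull ℝ (body (U i) (W i) M : Set (ℝ × ℝ)) := ⟨_, fun _ => rfl⟩
  have ne : ∀ i, (body (U i) (W i) M).Nonempty := fun i => by
    obtain ⟨b, hb⟩ := hf.left i
    exact ⟨_, Finset.mem_union_left _ (Finset.mem_image_of_mem _ hb)⟩
  have cont : ∀ i, Continuous (supp (A i)) := fun i => hA i ▸ continuous_supp_hull (ne i)
  have s1 : ∀ i θ, sin θ < 0 → supp (A i) θ = -sin θ * (f i (-cos θ / sin θ) + M) :=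
    fun i θ hθ => hA i ▸ supp_low (hf.env i) (d1 i) hθ
  have s2 : ∀ i θ, 0 < sin θ → supp (A i) θ = sin θ * (g i (-cos θ / sin θ) + M) :=
    fun i θ hθ => hA i ▸ supp_up (hg.env i) (d2 i) hθ
  have sg : ∀ a b, c a < c b → ∀ θ, SignType.sign (supp (A b) θ - supp (A a) θ) =
      SignType.sign (cos θ + t s(a, b) * sin θ) := by
    intro a b hab θ
    rcases lt_trichotomy (sin θ) 0 with hθ | hθ | hθ
    · have e : cos θ + t s(a, b) * sin θ = -sin θ * (-cos θ / sin θ - t s(a, b)) := by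
        have := hθ.ne
        field_simp
        ring
      rw [s1 _ _ hθ, s1 _ _ hθ, ← mul_sub, add_sub_add_right_eq_sub, e, sign_mul, sign_mul,
        hf.sgn a b hab]
    · rw [hA, hA, supp_flat (hf.rng a) (hg.rng a) (hf.left a) (hf.right a) hθ,
        supp_flat (hf.rng b) (hg.rng b) (hf.left b) (hf.right b) hθ, add_sub_add_left_eq_sub,
        ← mul_sub, sign_mul, _root_.sign_pos (sub_pos.2 hab), hθ]
      simp
    · have e : cos θ + t s(a, b) * sin θ = sin θ * -(-cos θ / sin θ - t s(b, a)) := by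
        have := hθ.ne'
        rw [Sym2.eq_swap]
        field_simp
        ring
      rw [s2 _ _ hθ, s2 _ _ hθ, ← mul_sub, add_sub_add_right_eq_sub, e, sign_mul, sign_mul,
        Left.sign_neg, ← hg.sgn b a (neg_lt_neg hab), ← Left.sign_neg, neg_sub]
  have z : ∀ a b, c a < c b → ∀ θ τ, Supports (A a) θ τ → Supports (A b) θ τ →
      cos θ + t s(a, b) * sin θ = 0 := fun a b hab θ τ h1 h2 => by
    rw [← _root_.sign_eq_zero_iff, ← sg a b hab, h1.eq, h2.eq, sub_self, _root_.sign_zero]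
  have nd : ∀ {a b}, c a < c b → ¬ s(a, b).IsDiag := by
    intro a b hab e
    rw [Sym2.mk_isDiag_iff.1 e] at hab
    exact hab.false
  have hT' : ∀ i j k, c i < c j → c j < c k →
      (χ i j k = 1 ∧ t s(i, j) < t s(i, k) ∧ t s(i, k) < t s(j, k)) ∨
      (χ i j k = -1 ∧ t s(j, k) < t s(i, k) ∧ t s(i, k) < t s(i, j)) := fun i j k ij jk =>
    have ik := ij.trans jk
    (hT i j k ij jk).imp
      (fun h => ⟨h.1, ht _ _ (nd ij) (nd ik) h.2.1, ht _ _ (nd ik) (nd jk) h.2.2⟩)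
      fun h => ⟨h.1, ht _ _ (nd jk) (nd ik) h.2.1, ht _ _ (nd ik) (nd ij) h.2.2⟩
  have sz : ∀ {τ θ : ℝ}, cos θ + τ * sin θ = 0 → sin θ ≠ 0 := fun {τ θ} h e => by
    have := sin_sq_add_cos_sq θ
    rw [e, mul_zero, add_zero] at h
    rw [e, h] at this
    norm_num at this
  have pair : ∀ a b, c a < c b → ∀ θ τ, Supports (A a) θ τ → Supports (A b) θ τ →
      ∀ p ∈ A a, p ∈ A b → ip θ p ≠ τ := by
    intro a b hab θ τ h1 h2 p pa pb e
    have h3 := z a b hab θ τ h1 h2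
    have h4 := sz h3
    have h5 : -cos θ / sin θ = t s(a, b) := by
      field_simp
      linarith
    rw [ip_eq h4, h5] at e
    rw [hA] at pa pb
    rcases h4.lt_or_gt with hθ | hθ
    · have := hf.loc a b hab p.1 (-p.2 - M)
        (fun y => by linarith [body_low (hf.env a) (d1 a) y p pa])
        fun y => by linarith [body_low (hf.env b) (d1 b) y p pb]
      rw [← h1.eq, s1 _ _ hθ, h5] at e
      nlinarith
    · have := hg.loc b a (neg_lt_neg hab) (-p.1) (p.2 - M)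
        (fun y => by linarith [body_up (hg.env b) (d2 b) y p pb])
        fun y => by linarith [body_up (hg.env a) (d2 a) y p pa]
      rw [Sym2.eq_swap] at this
      rw [← h2.eq, s2 _ _ hθ, h5] at e
      nlinarith
  have model : ∀ {i j k}, i ≠ j → i ≠ k → j ≠ k → ∃ p q r, χ i j k = SignType.sign (det3 p q r) ∧
      SameType ![A i, A j, A k] ![{p}, {q}, {r}] := by
    intro i j k
    refine sort3 hc (P := fun i j k => ∃ p q r, χ i j k = SignType.sign (det3 p q r) ∧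
      SameType ![A i, A j, A k] ![{p}, {q}, {r}]) ?_ ?_ fun i j k ij jk => ?_
    · rintro i j k ⟨p, q, r, h1, h2⟩
      refine ⟨q, p, r, ?_, h2.swap'⟩
      rw [hχ.swap_left, h1, ← Left.sign_neg]
      congr 1
      simp only [det3]
      ring
    · rintro i j k ⟨p, q, r, h1, h2⟩
      exact ⟨p, r, q, by rw [hχ.swap_right, h1, det3_swap p q r, Left.sign_neg], h2.swap⟩
    have k0 := hT' i j k ij jk
    obtain ⟨p, q, r, k1, k2, k3, k4⟩ := exists_model (k0.imp And.right And.right)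
    refine ⟨p, q, r, ?_, sameType_of_three (cont _) (cont _) (cont _)
      (fun θ => (sg _ _ ij θ).trans (k2 θ)) (fun θ => (sg _ _ (ij.trans jk) θ).trans (k3 θ))
      fun θ => (sg _ _ jk θ).trans (k4 θ)⟩
    rcases k0 with h | h
    · rw [k1, h.1, _root_.sign_pos (by linarith [h.2.1, h.2.2])]
    · rw [k1, h.1, _root_.sign_neg (by linarith [h.2.1, h.2.2])]
  have dz : ∀ {i j k p q r}, i ≠ j → i ≠ k → j ≠ k → χ i j k = SignType.sign (det3 p q r) →
      det3 p q r ≠ 0 := fun ij ik jk e e' =>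
    hχ.uniform _ _ _ ij ik jk (by rw [e, e', _root_.sign_zero])
  refine ⟨A, ⟨fun i => ?_, fun i j ij θ τ h1 h2 p hp => ?_, fun i j k => ?_, ?_⟩, fun i => ?_,
    fun i j k ij ik jk => ?_, fun i j k ij ik jk => ?_⟩
  · rw [hA]
    exact ⟨(Finset.finite_toSet _).isCompact_convexHull _, convex_convexHull _ _,
      (Finset.coe_nonempty.2 (ne i)).convexHull⟩
  · rcases (hc.ne ij).lt_or_gt with h | h
    · exact pair i j h θ τ h1 h2 p hp.1 hp.2
    · exact pair j i h θ τ h2 h1 p hp.2 hp.1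
  · refine sort3 hc (P := fun i j k => ∀ θ τ,
      ¬ (Supports (A i) θ τ ∧ Supports (A j) θ τ ∧ Supports (A k) θ τ))
      (fun i j k h θ τ h' => h θ τ (by tauto)) (fun i j k h θ τ h' => h θ τ (by tauto))
      fun i j k ij jk θ τ h => ?_
    have h1 := z i j ij θ τ h.1 h.2.1
    have h2 := z i k (ij.trans jk) θ τ h.1 h.2.2
    have h3 : t s(i, j) = t s(i, k) := mul_right_cancel₀ (sz h1) (by linarith)
    rcases hT' i j k ij jk with h | h <;> linarith [h.2.1, h.2.2]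
  · refine (Set.finite_iUnion fun i => Set.finite_iUnion fun j =>
      (finite_zeros (t s(i, j))).image fun θ => (θ, supp (A i) θ)).subset ?_
    rintro x ⟨h0, i, j, ij, h1, h2⟩
    simp only [mem_iUnion]
    rcases (hc.ne ij).lt_or_gt with h | h
    · exact ⟨i, j, x.1, ⟨h0, z i j h _ _ h1 h2⟩, Prod.ext rfl h1.eq⟩
    · exact ⟨j, i, x.1, ⟨h0, z j i h _ _ h2 h1⟩, Prod.ext rfl h2.eq⟩
  · refine ⟨_, ne i, ?_, hA i⟩
    have h1 := hf.card i
    have h2 := hg.card i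
    have h3 : (body (U i) (W i) M).card ≤ (U i).card + (W i).card :=
      (Finset.card_union_le _ _).trans (add_le_add Finset.card_image_le Finset.card_image_le)
    have h4 := Finset.card_union_of_disjoint (s := Finset.univ.filter fun j => c j < c i)
      (t := Finset.univ.filter fun j => -c j < -c i)
      (Finset.disjoint_filter.2 fun j _ h h' => h.not_gt (neg_lt_neg_iff.1 h'))
    have h5 := Finset.card_lt_card (s := (Finset.univ.filter fun j => c j < c i) ∪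
      Finset.univ.filter fun j => -c j < -c i) (t := Finset.univ)
      ((Finset.ssubset_iff_of_subset (Finset.subset_univ _)).2 ⟨i, by simp, by simp⟩)
    rw [Finset.card_univ, Fintype.card_fin] at h5
    omega
  · obtain ⟨p, q, r, h1, h2⟩ := model ij ik jk
    exact ⟨p, q, r, dz ij ik jk h1, h2⟩
  · obtain ⟨p, q, r, h1, h2⟩ := model ij ik jk
    rw [model_iff (cont _) (cont _) (cont _) h2 (dz ij ik jk h1), h1, sign_eq_one_iff]

end Pool.Agent.MP_14a896_co
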